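import Pool.Agent.Lib.MP_099f24_an.TR.TipCircle

/-!
# MP_099f24_an TR, module TIP: rigidity of the crack tip (elements with `D(r) = φ r`, `φ > 0`)
-/

namespace Pool.Agent.MP099f24

open MeasureTheory Filter Topology Set Metric
open scoped ENNReal ContDiff

/-- The data used for the rigidity of the crack tip: `v` is the conjugate function, `g` the gradient
of `u`, `∇v = i g` off `K`, `v = 0` on `K`, every circle around `0` meets `K`, and the two
identities on almost every circle (`D(r) = φ r`). -/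
structure TipData (K : Set ℂ) (v : ℂ → ℝ) (g : ℂ → ℂ) (φ : ℝ) : Prop where
  pos : 0 < φ
  closed : IsClosed K
  cont : Continuous v
  meas : Measurable g
  zero : ∀ x ∈ K, v x = 0
  contg : ContinuousOn g Kᶜ
  deriv : ∀ x ∉ K, HasFDerivAt v (innerSL ℝ (Complex.I * g x)) x
  mem0 : (0 : ℂ) ∈ K
  meets : ∀ r : ℝ, 0 < r → ∃ x ∈ K, ‖x‖ = r
  slice : ∀ᵐ r ∂(volume.restrict (Ioi (0 : ℝ))),
    IntegrableOn (fun θ => ‖g (pc 0 r θ)‖ ^ 2) (Ioo (-Real.pi) Real.pi) ∧
    (∀ α β : ℝ, v (pc 0 r β) - v (pc 0 r α) =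
      ∫ θ in α..β, r * inner ℝ (Complex.I * g (pc 0 r θ)) (et θ)) ∧
    r * ∫ θ in Ioo (-Real.pi) Real.pi, ‖g (pc 0 r θ)‖ ^ 2 = φ ∧
    r * ∫ θ in Ioo (-Real.pi) Real.pi,
      v (pc 0 r θ) * inner ℝ (Complex.I * g (pc 0 r θ)) (er θ) = φ * r

variable {K : Set ℂ} {v : ℂ → ℝ} {g : ℂ → ℂ} {φ : ℝ}

theorem tip_mem_pc {x : ℂ} {r : ℝ} (hx : ‖x‖ = r) : x = pc 0 r x.arg := by
  rw [pc, zero_add, er, ← hx, Complex.norm_mul_exp_arg_mul_I]

theorem tip_er_arg {x : ℂ} {r : ℝ} (hr : 0 < r) (hx : ‖x‖ = r) : er x.arg = x / r := by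
  have h := tip_mem_pc hx
  rw [pc, zero_add] at h
  have hr' : (r : ℂ) ≠ 0 := by exact_mod_cast hr.ne'
  rw [eq_div_iff hr', mul_comm]
  exact h.symm

theorem tip_inner_smul (y e : ℂ) (r : ℝ) : inner ℝ y ((r : ℂ) * e) = r * inner ℝ y e := by
  rw [← Complex.real_smul, inner_smul_right]

/-- almost every circle is good -/
theorem TipData.good (h : TipData K v g φ) : ∀ᵐ r ∂(volume.restrict (Ioi (0 : ℝ))),
    ∀ x ∈ K, ‖x‖ = r →
      (∀ z : ℂ, ‖z‖ = r → v z ^ 2 = φ / Real.pi * (r - (z * (starRingEnd ℂ) (x / r)).re)) ∧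
      (∀ᵐ θ ∂(volume.restrict (Ioc x.arg (x.arg + 2 * Real.pi))),
        r * inner ℝ (Complex.I * g (pc 0 r θ)) (er θ) = v (pc 0 r θ) / 2) := by
  filter_upwards [h.slice, ae_restrict_mem measurableSet_Ioi] with r hr hr0 x hxK hx
  obtain ⟨h1, h2, h3, h4⟩ := hr
  have hr0' : 0 < r := hr0
  have hp : v (pc 0 r x.arg) = 0 := by
    rw [← tip_mem_pc hx]
    exact h.zero x hxK
  have := tip_circle h.pos hr0' h.meas hp h.cont h1 h2 h3 h4
  rw [tip_er_arg hr0' hx] at this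
  exact this

/-- points of a full-measure subset of the half line, arbitrarily close to a given point -/
theorem tip_seq {P : ℝ → Prop} (hP : ∀ᵐ r ∂(volume.restrict (Ioi (0 : ℝ))), P r) {r₀ : ℝ}
    (hr₀ : 0 < r₀) {ε : ℝ} (hε : 0 < ε) : ∃ r, 0 < r ∧ |r - r₀| < ε ∧ P r := by
  by_contra hcon
  push Not at hcon
  have h1 := (ae_restrict_iff' measurableSet_Ioi).1 hP
  rw [ae_iff] at h1
  have h2 : Ioo r₀ (r₀ + ε) ⊆ {r | ¬ (r ∈ Ioi (0 : ℝ) → P r)} := by
    intro r hr
    simp only [mem_ofPred_eq, Classical.not_imp]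
    refine ⟨hr₀.trans hr.1, hcon r (hr₀.trans hr.1) ?_⟩
    rw [abs_lt]
    constructor <;> linarith [hr.1, hr.2]
  have h3 := measure_mono_null h2 h1
  rw [Real.volume_Ioo] at h3
  simp at h3
  linarith

/-- **The profile on every circle.** -/
theorem TipData.profile (h : TipData K v g φ) {r₀ : ℝ} (hr₀ : 0 < r₀) :
    ∃ w : ℂ, ‖w‖ = 1 ∧ (r₀ : ℂ) * w ∈ K ∧
      ∀ z : ℂ, ‖z‖ = r₀ → v z ^ 2 = φ / Real.pi * (r₀ - (z * (starRingEnd ℂ) w).re) := by
  -- a sequence of good radii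
  have hseq : ∀ n : ℕ, ∃ r : ℝ, 0 < r ∧ |r - r₀| < 1 / ((n : ℝ) + 1) ∧ ∀ x ∈ K, ‖x‖ = r →
      (∀ z : ℂ, ‖z‖ = r → v z ^ 2 = φ / Real.pi * (r - (z * (starRingEnd ℂ) (x / r)).re)) ∧
      (∀ᵐ θ ∂(volume.restrict (Ioc x.arg (x.arg + 2 * Real.pi))),
        r * inner ℝ (Complex.I * g (pc 0 r θ)) (er θ) = v (pc 0 r θ) / 2) :=
    fun n => tip_seq h.good hr₀ (by positivity)
  choose r hr0 hrr hrP using hseq
  have hmeet : ∀ n, ∃ x ∈ K, ‖x‖ = r n := fun n => h.meets (r n) (hr0 n)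
  choose x hxK hxr using hmeet
  set w : ℕ → ℂ := fun n => x n / r n with hw
  have hw1 : ∀ n, w n ∈ sphere (0 : ℂ) 1 := by
    intro n
    rw [mem_sphere_zero_iff_norm, hw]
    simp only
    rw [norm_div, hxr, Complex.norm_real, Real.norm_eq_abs, abs_of_pos (hr0 n),
      div_self (hr0 n).ne']
  obtain ⟨w₀, hw₀, σ, hσ, hlim⟩ := (isCompact_sphere (0 : ℂ) 1).tendsto_subseq hw1
  have hrlim : Tendsto r atTop (𝓝 r₀) := by
    rw [Metric.tendsto_atTop]
    intro ε hε
    obtain ⟨N, hN⟩ := exists_nat_one_div_lt hε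
    refine ⟨N, fun n hn => ?_⟩
    rw [Real.dist_eq]
    refine (hrr n).trans (lt_of_le_of_lt ?_ hN)
    apply one_div_le_one_div_of_le (by positivity)
    have : (N : ℝ) ≤ n := by exact_mod_cast hn
    linarith
  have hrlim' : Tendsto (fun n => r (σ n)) atTop (𝓝 r₀) := hrlim.comp hσ.tendsto_atTop
  have hrC : Tendsto (fun n => ((r (σ n) : ℝ) : ℂ)) atTop (𝓝 (r₀ : ℂ)) :=
    (Complex.continuous_ofReal.tendsto _).comp hrlim'
  refine ⟨w₀, mem_sphere_zero_iff_norm.1 hw₀, ?_, ?_⟩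
  · have h1 : Tendsto (fun n => ((r (σ n) : ℝ) : ℂ) * w (σ n)) atTop (𝓝 ((r₀ : ℂ) * w₀)) :=
      hrC.mul hlim
    refine h.closed.mem_of_tendsto h1 (Eventually.of_forall fun n => ?_)
    have : ((r (σ n) : ℝ) : ℂ) * w (σ n) = x (σ n) := by
      rw [hw]
      simp only
      rw [mul_div_cancel₀]
      exact_mod_cast (hr0 _).ne'
    rw [this]
    exact hxK _
  · intro z hz
    have hr₀C : (r₀ : ℂ) ≠ 0 := by exact_mod_cast hr₀.ne'
    have hz1 : Tendsto (fun n => ((r (σ n) : ℝ) : ℂ) * (z / r₀)) atTop (𝓝 z) := by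
      have := hrC.mul_const (z / r₀)
      rwa [mul_div_cancel₀ _ hr₀C] at this
    have hzn : ∀ n, ‖((r (σ n) : ℝ) : ℂ) * (z / r₀)‖ = r (σ n) := by
      intro n
      rw [norm_mul, norm_div, hz, Complex.norm_real, Complex.norm_real, Real.norm_eq_abs,
        Real.norm_eq_abs, abs_of_pos (hr0 _), abs_of_pos hr₀, div_self hr₀.ne', mul_one]
    have h1 : ∀ n, v (((r (σ n) : ℝ) : ℂ) * (z / r₀)) ^ 2 = φ / Real.pi * (r (σ n) -
        ((((r (σ n) : ℝ) : ℂ) * (z / r₀)) * (starRingEnd ℂ) (w (σ n))).re) := fun n =>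
      (hrP (σ n) (x (σ n)) (hxK _) (hxr _)).1 _ (hzn n)
    have h2 : Tendsto (fun n => v (((r (σ n) : ℝ) : ℂ) * (z / r₀)) ^ 2) atTop (𝓝 (v z ^ 2)) :=
      ((h.cont.tendsto z).comp hz1).pow 2
    have h3 : Tendsto (fun n => φ / Real.pi * (r (σ n) -
        ((((r (σ n) : ℝ) : ℂ) * (z / r₀)) * (starRingEnd ℂ) (w (σ n))).re)) atTop
        (𝓝 (φ / Real.pi * (r₀ - (z * (starRingEnd ℂ) w₀).re))) := by
      apply Tendsto.const_mul
      apply hrlim'.sub
      refine (Complex.continuous_re.tendsto _).comp ?_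
      exact hz1.mul ((Complex.continuous_conj.tendsto _).comp hlim)
    exact tendsto_nhds_unique h2 ((tendsto_congr h1).2 h3)

/-- `z` with `Re (z w̄) = |z|` is `|z| w` -/
theorem tip_re_eq {z w : ℂ} (hw : ‖w‖ = 1) (h : (z * (starRingEnd ℂ) w).re = ‖z‖) :
    z = (‖z‖ : ℂ) * w := by
  have hww : (starRingEnd ℂ) w * w = 1 := by
    rw [mul_comm, Complex.mul_conj, Complex.normSq_eq_norm_sq, hw]; norm_num
  set ζ : ℂ := z * (starRingEnd ℂ) w with hζ
  have h1 : ‖ζ‖ = ‖z‖ := by rw [hζ, norm_mul, Complex.norm_conj, hw, mul_one]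
  have h2 : ζ.im = 0 := by
    have h3 := Complex.sq_norm ζ
    rw [h1, Complex.normSq_apply, h] at h3
    nlinarith
  have h3 : ζ = (‖z‖ : ℂ) := by
    apply Complex.ext
    · rw [h]; simp
    · rw [h2]; simp
  calc z = z * ((starRingEnd ℂ) w * w) := by rw [hww, mul_one]
    _ = ζ * w := by rw [hζ]; ring
    _ = _ := by rw [h3]

/-- the direction of the crack on the circle of radius `r` -/
theorem TipData.exists_dir (h : TipData K v g φ) : ∃ w : ℝ → ℂ, ∀ r : ℝ, 0 < r →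
    ‖w r‖ = 1 ∧ (r : ℂ) * w r ∈ K ∧ (∀ z ∈ K, ‖z‖ = r → z = r * w r) ∧
      ∀ z : ℂ, ‖z‖ = r → v z ^ 2 = φ / Real.pi * (r - (z * (starRingEnd ℂ) (w r)).re) := by
  have hpi := Real.pi_pos
  have h1 : ∀ r : ℝ, ∃ w : ℂ, 0 < r → ‖w‖ = 1 ∧ (r : ℂ) * w ∈ K ∧
      (∀ z ∈ K, ‖z‖ = r → z = r * w) ∧
      ∀ z : ℂ, ‖z‖ = r → v z ^ 2 = φ / Real.pi * (r - (z * (starRingEnd ℂ) w).re) := by
    intro r
    rcases le_or_gt r 0 with hr | hr
    · exact ⟨0, fun hcon => absurd hcon (not_lt.2 hr)⟩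
    · obtain ⟨w, hw1, hw2, hw3⟩ := h.profile hr
      refine ⟨w, fun _ => ⟨hw1, hw2, fun z hz hzr => ?_, hw3⟩⟩
      have h2 := hw3 z hzr
      rw [h.zero z hz] at h2
      have h3 : r - (z * (starRingEnd ℂ) w).re = 0 := by
        have : φ / Real.pi ≠ 0 := (div_pos h.pos hpi).ne'
        have h4 : φ / Real.pi * (r - (z * (starRingEnd ℂ) w).re) = 0 := by rw [← h2]; norm_num
        rcases mul_eq_zero.1 h4 with h5 | h5
        · exact absurd h5 this
        · exact h5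
      have h4 := tip_re_eq hw1 (z := z) (by rw [hzr]; linarith)
      rw [hzr] at h4
      exact h4
  choose w hw using h1
  exact ⟨w, hw⟩

/-- Off the crack, `v` is positively homogeneous of degree `1/2`, infinitesimally. -/
theorem TipData.radial (h : TipData K v g φ) {z : ℂ} (hz : z ∉ K) (hz0 : z ≠ 0) :
    inner ℝ (Complex.I * g z) z = v z / 2 := by
  by_contra hcon
  -- the inequality holds near `z`
  have hc : ContinuousOn (fun x => inner ℝ (Complex.I * g x) x - v x / 2) Kᶜ :=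
    ((continuousOn_const.mul h.contg).inner continuousOn_id).sub
      ((h.cont.div_const 2).continuousOn)
  have hopen : IsOpen Kᶜ := h.closed.isOpen_compl
  have hne : ∀ᶠ x in 𝓝 z, inner ℝ (Complex.I * g x) x - v x / 2 ≠ 0 :=
    (hc.continuousAt (hopen.mem_nhds hz)).eventually_ne (sub_ne_zero.2 hcon)
  obtain ⟨δ, hδ, hball⟩ := Metric.eventually_nhds_iff.1 (hne.and (hopen.mem_nhds hz))
  set r₀ : ℝ := ‖z‖ with hr₀
  have hr₀p : 0 < r₀ := norm_pos_iff.2 hz0
  obtain ⟨r, hr0, hrr, hr⟩ := tip_seq h.good hr₀p (half_pos hδ)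
  obtain ⟨x, hxK, hxr⟩ := h.meets r hr0
  have hae := (hr x hxK hxr).2
  -- the angles close to the argument of `z`
  obtain ⟨n, hn, -⟩ := existsUnique_add_zsmul_mem_Ico (by positivity : (0 : ℝ) < 2 * Real.pi)
    z.arg x.arg
  set θ₀ : ℝ := z.arg + n • (2 * Real.pi) with hθ₀
  have hzθ : z = pc 0 r₀ θ₀ := by
    have e1 : er θ₀ = er z.arg := by
      rw [er, er, hθ₀, zsmul_eq_mul]
      push_cast
      rw [add_mul, Complex.exp_add]
      have : Complex.exp ((n : ℂ) * (2 * Real.pi) * Complex.I) = 1 := by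
        rw [Complex.exp_eq_one_iff]
        exact ⟨n, by ring⟩
      rw [this, mul_one]
    rw [pc, e1, zero_add, er, hr₀, Complex.norm_mul_exp_arg_mul_I]
  have hcont : Continuous (fun θ : ℝ => pc 0 r θ) :=
    (polar_pc_cont 0).comp (continuous_const.prodMk continuous_id)
  have hd0 : dist (pc 0 r θ₀) z < δ := by
    rw [hzθ, pc, pc, zero_add, zero_add, Complex.dist_eq, ← sub_mul, norm_mul, er,
      Complex.norm_exp_ofReal_mul_I, mul_one, ← Complex.ofReal_sub, Complex.norm_real,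
      Real.norm_eq_abs]
    linarith
  have hev : ∀ᶠ θ in 𝓝 θ₀, dist (pc 0 r θ) z < δ :=
    (hcont.dist continuous_const).continuousAt.eventually_lt continuousAt_const hd0
  obtain ⟨η, hη, hηball⟩ := Metric.eventually_nhds_iff.1 hev
  have hsub : Ioo θ₀ (min (θ₀ + η) (x.arg + 2 * Real.pi)) ⊆
      {θ | ¬ (θ ∈ Ioc x.arg (x.arg + 2 * Real.pi) →
        r * inner ℝ (Complex.I * g (pc 0 r θ)) (er θ) = v (pc 0 r θ) / 2)} := by
    intro θ hθ
    simp only [mem_ofPred_eq, Classical.not_imp]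
    have hθ2 := lt_min_iff.1 hθ.2
    refine ⟨⟨lt_of_le_of_lt hn.1 hθ.1, hθ2.2.le⟩, ?_⟩
    have h1 : dist (pc 0 r θ) z < δ := by
      apply hηball
      rw [Real.dist_eq, abs_lt]
      constructor <;> linarith [hθ.1, hθ2.1]
    have h2 := (hball h1).1
    intro h3
    apply h2
    have h4 : inner ℝ (Complex.I * g (pc 0 r θ)) (pc 0 r θ) =
        r * inner ℝ (Complex.I * g (pc 0 r θ)) (er θ) := by
      rw [← tip_inner_smul, pc, zero_add]
    rw [h4, h3, sub_self]
  have h5 := measure_mono_null hsub (ae_iff.1 ((ae_restrict_iff' measurableSet_Ioc).1 hae))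
  rw [Real.volume_Ioo] at h5
  have h6 : 0 < min (θ₀ + η) (x.arg + 2 * Real.pi) - θ₀ := by
    rw [sub_pos, lt_min_iff]
    exact ⟨by linarith, hn.2⟩
  rw [ENNReal.ofReal_eq_zero] at h5
  linarith

/-- Along radial segments off the crack `v² / |z|` is constant. -/
theorem TipData.ray_const (h : TipData K v g φ) {z : ℂ} (hz0 : z ≠ 0) {a b : ℝ} (ha : 0 < a)
    (hab : ∀ t ∈ Icc a b, (t : ℂ) * z ∉ K) {s t : ℝ} (hs : s ∈ Icc a b) (ht : t ∈ Icc a b) :
    v ((s : ℂ) * z) ^ 2 / s = v ((t : ℂ) * z) ^ 2 / t := by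
  have hd : ∀ τ ∈ Icc a b, HasDerivAt (fun τ : ℝ => v ((τ : ℂ) * z) ^ 2 / τ) 0 τ := by
    intro τ hτ
    have hτ0 : 0 < τ := ha.trans_le hτ.1
    have h1 : HasDerivAt (fun τ : ℝ => (τ : ℂ) * z) z τ := by
      have := (Complex.ofRealCLM.hasDerivAt (x := τ)).mul_const z
      simpa using this
    have hzτ : (τ : ℂ) * z ≠ 0 := mul_ne_zero (by exact_mod_cast hτ0.ne') hz0
    have h2 := (h.deriv _ (hab τ hτ)).comp_hasDerivAt τ h1
    have h3 : (innerSL ℝ (Complex.I * g ((τ : ℂ) * z))) z = v ((τ : ℂ) * z) / (2 * τ) := by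
      have h4 := h.radial (hab τ hτ) hzτ
      rw [innerSL_apply_apply]
      rw [tip_inner_smul] at h4
      field_simp
      linarith
    rw [h3] at h2
    have h4 := (h2.pow 2).div (hasDerivAt_id τ) hτ0.ne'
    refine h4.congr_deriv ?_
    simp only [Function.comp, id, Pi.pow_apply]
    field_simp
    ring
  have hconst : ∀ τ ∈ Icc a b, v ((τ : ℂ) * z) ^ 2 / τ = v ((a : ℂ) * z) ^ 2 / a := by
    have hle : a ≤ b := hs.1.trans hs.2
    apply constant_of_has_deriv_right_zero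
    · intro τ hτ
      exact (hd τ hτ).continuousAt.continuousWithinAt
    · intro τ hτ
      exact (hd τ (Ico_subset_Icc_self hτ)).hasDerivWithinAt
  rw [hconst s hs, hconst t ht]

/-- The direction of the crack is locally constant. -/
theorem TipData.dir_locally_const (h : TipData K v g φ) {w : ℝ → ℂ} (hw : ∀ r : ℝ, 0 < r →
    ‖w r‖ = 1 ∧ (r : ℂ) * w r ∈ K ∧ (∀ z ∈ K, ‖z‖ = r → z = r * w r) ∧
      ∀ z : ℂ, ‖z‖ = r → v z ^ 2 = φ / Real.pi * (r - (z * (starRingEnd ℂ) (w r)).re))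
    {r₀ : ℝ} (hr₀ : 0 < r₀) : ∀ᶠ r in 𝓝 r₀, w r = w r₀ := by
  have hpi := Real.pi_pos
  obtain ⟨hw1, hwK, hwu, -⟩ := hw r₀ hr₀
  have hr₀C : (r₀ : ℂ) ≠ 0 := by exact_mod_cast hr₀.ne'
  have hw0 : w r₀ ≠ 0 := by
    intro hcon
    rw [hcon, norm_zero] at hw1
    norm_num at hw1
  have hww : w r₀ * (starRingEnd ℂ) (w r₀) = 1 := by
    rw [Complex.mul_conj, Complex.normSq_eq_norm_sq, hw1]; norm_num
  -- a direction `u` different from `w r₀` gives information
  have hdir : ∀ c : ℂ, ‖c‖ = 1 → c ≠ 1 →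
      ∀ᶠ r in 𝓝 r₀, (c * w r₀ * (starRingEnd ℂ) (w r)).re = c.re := by
    intro c hc hc1
    set u : ℂ := c * w r₀ with hu
    have hu1 : ‖u‖ = 1 := by rw [hu, norm_mul, hc, hw1, mul_one]
    have hu0 : u ≠ 0 := by
      intro hcon
      rw [hcon, norm_zero] at hu1
      norm_num at hu1
    have huK : (r₀ : ℂ) * u ∉ K := by
      intro hcon
      have h1 := hwu _ hcon (by
        rw [norm_mul, hu1, Complex.norm_real, Real.norm_eq_abs, abs_of_pos hr₀, mul_one])
      have h2 : u = w r₀ := mul_left_cancel₀ hr₀C h1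
      rw [hu] at h2
      apply hc1
      exact mul_right_cancel₀ hw0 (by rw [h2, one_mul])
    have hcont : Continuous (fun t : ℝ => (t : ℂ) * u) := by fun_prop
    have hev : ∀ᶠ t : ℝ in 𝓝 r₀, (t : ℂ) * u ∉ K :=
      hcont.continuousAt.eventually (h.closed.isOpen_compl.mem_nhds huK)
    obtain ⟨η, hη, hball⟩ := Metric.eventually_nhds_iff.1 hev
    set δ : ℝ := min (η / 2) (r₀ / 2) with hδ
    have hδ0 : 0 < δ := lt_min (half_pos hη) (half_pos hr₀)
    have hδ1 : δ ≤ η / 2 := min_le_left _ _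
    have hδ2 : δ ≤ r₀ / 2 := min_le_right _ _
    filter_upwards [Icc_mem_nhds (show r₀ - δ < r₀ by linarith) (show r₀ < r₀ + δ by linarith)]
      with r hr
    have hrp : 0 < r := by linarith [hr.1]
    have h1 := h.ray_const hu0 (a := r₀ - δ) (b := r₀ + δ) (by linarith) (fun t ht => by
      apply hball
      rw [Real.dist_eq, abs_lt]
      constructor <;> linarith [ht.1, ht.2]) hr (t := r₀) ⟨by linarith, by linarith⟩
    have h2 := (hw r hrp).2.2.2 ((r : ℂ) * u) (by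
      rw [norm_mul, hu1, Complex.norm_real, Real.norm_eq_abs, abs_of_pos hrp, mul_one])
    have h3 := (hw r₀ hr₀).2.2.2 ((r₀ : ℂ) * u) (by
      rw [norm_mul, hu1, Complex.norm_real, Real.norm_eq_abs, abs_of_pos hr₀, mul_one])
    rw [h2, h3] at h1
    have e1 : ((r : ℂ) * u * (starRingEnd ℂ) (w r)).re = r * (u * (starRingEnd ℂ) (w r)).re := by
      rw [mul_assoc, Complex.re_ofReal_mul]
    have e2 : ((r₀ : ℂ) * u * (starRingEnd ℂ) (w r₀)).re = r₀ * c.re := by
      rw [mul_assoc, Complex.re_ofReal_mul, hu, mul_assoc, hww, mul_one]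
    rw [e1, e2] at h1
    have h4 : φ / Real.pi * (r - r * (u * (starRingEnd ℂ) (w r)).re) / r =
        φ / Real.pi * (1 - (u * (starRingEnd ℂ) (w r)).re) := by field_simp
    have h5 : φ / Real.pi * (r₀ - r₀ * c.re) / r₀ = φ / Real.pi * (1 - c.re) := by field_simp
    rw [h4, h5] at h1
    have h6 := mul_left_cancel₀ (div_pos h.pos hpi).ne' h1
    linarith
  have hA := hdir (-1) (by simp) (by norm_num)
  have hB := hdir Complex.I (by simp) (by
    intro hcon
    have := congrArg Complex.re hcon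
    simp at this)
  filter_upwards [hA, hB] with r h1 h2
  set ζ : ℂ := w r₀ * (starRingEnd ℂ) (w r) with hζ
  have h3 : ζ.re = 1 := by
    have : (-1 * w r₀ * (starRingEnd ℂ) (w r)).re = -ζ.re := by
      rw [hζ, mul_assoc]; simp
    rw [this] at h1
    simp at h1
    linarith
  have h4 : ζ.im = 0 := by
    have : (Complex.I * w r₀ * (starRingEnd ℂ) (w r)).re = -ζ.im := by
      rw [hζ, mul_assoc]; simp
    rw [this] at h2
    simp at h2
    linarith
  have h5 : ζ = 1 := Complex.ext (by simp [h3]) (by simp [h4])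
  have h6 : w r₀ * (starRingEnd ℂ) (w r) = 1 := h5
  calc w r = (w r₀ * (starRingEnd ℂ) (w r₀)) * w r := by rw [hww, one_mul]
    _ = (starRingEnd ℂ) (w r₀ * (starRingEnd ℂ) (w r)) * w r₀ := by
        rw [map_mul, Complex.conj_conj]; ring
    _ = w r₀ := by rw [h6, map_one, one_mul]

/-- **The crack is a half line.** -/
theorem TipData.crack (h : TipData K v g φ) : ∃ w : ℂ, ‖w‖ = 1 ∧
    K = {z | ∃ t : ℝ, 0 ≤ t ∧ z = t * w} ∧
    ∀ z : ℂ, v z ^ 2 = φ / Real.pi * (‖z‖ - (z * (starRingEnd ℂ) w).re) := by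
  obtain ⟨w, hw⟩ := h.exists_dir
  have hconst : ∀ r : ℝ, 0 < r → w r = w 1 := by
    intro r hr
    have hpre : IsPreconnected (Ioi (0 : ℝ)) := isPreconnected_Ioi
    have hlc : IsLocallyConstant (fun x : Ioi (0 : ℝ) => w x) := by
      rw [IsLocallyConstant.iff_eventually_eq]
      intro x
      have := h.dir_locally_const hw x.2
      exact (continuous_subtype_val.tendsto x).eventually this
    have : PreconnectedSpace (Ioi (0 : ℝ)) := Subtype.preconnectedSpace hpre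
    have h1m : (1 : ℝ) ∈ Ioi (0 : ℝ) := mem_Ioi.2 one_pos
    exact hlc.apply_eq_of_isPreconnected (s := univ) isPreconnected_univ
      (x := (⟨r, hr⟩ : Ioi (0 : ℝ))) (y := (⟨1, h1m⟩ : Ioi (0 : ℝ))) (mem_univ _) (mem_univ _)
  refine ⟨w 1, (hw 1 one_pos).1, ?_, ?_⟩
  · ext z
    constructor
    · intro hz
      rcases eq_or_ne z 0 with h0 | h0
      · exact ⟨0, le_rfl, by simp [h0]⟩
      · have hp : 0 < ‖z‖ := norm_pos_iff.2 h0
        refine ⟨‖z‖, hp.le, ?_⟩
        rw [← hconst _ hp]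
        exact (hw _ hp).2.2.1 z hz rfl
    · rintro ⟨t, ht, rfl⟩
      rcases ht.eq_or_lt with h0 | h0
      · rw [← h0]; simpa using h.mem0
      · rw [← hconst t h0]
        exact (hw t h0).2.1
  · intro z
    rcases eq_or_ne z 0 with h0 | h0
    · rw [h0, h.zero 0 h.mem0]; simp
    · have hp : 0 < ‖z‖ := norm_pos_iff.2 h0
      rw [← hconst _ hp]
      exact (hw _ hp).2.2.2 z rfl

/-- the complement of a half line is preconnected -/
theorem tip_compl_preconnected {w : ℂ} (hw : ‖w‖ = 1) :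
    IsPreconnected ({z | ∃ t : ℝ, 0 ≤ t ∧ z = t * w}ᶜ : Set ℂ) := by
  have hww : w * (starRingEnd ℂ) w = 1 := by
    rw [Complex.mul_conj, Complex.normSq_eq_norm_sq, hw]; norm_num
  have e : ({z | ∃ t : ℝ, 0 ≤ t ∧ z = t * w}ᶜ : Set ℂ) =
      (fun z : ℂ => -w * z) '' Complex.slitPlane := by
    ext z
    simp only [mem_compl_iff, mem_ofPred_eq, mem_image]
    constructor
    · intro hz
      refine ⟨-(starRingEnd ℂ) w * z, ?_, ?_⟩
      · rw [Complex.mem_slitPlane_iff_not_le_zero]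
        intro hle
        apply hz
        rw [Complex.le_def] at hle
        simp only [Complex.zero_re, Complex.zero_im] at hle
        refine ⟨((starRingEnd ℂ) w * z).re, ?_, ?_⟩
        · have := hle.1
          rw [neg_mul, Complex.neg_re] at this
          linarith
        · have h2 : ((starRingEnd ℂ) w * z).im = 0 := by
            have := hle.2
            rw [neg_mul, Complex.neg_im] at this
            linarith
          have h3 : (((starRingEnd ℂ) w * z).re : ℂ) = (starRingEnd ℂ) w * z := by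
            apply Complex.ext
            · simp
            · rw [h2]; simp
          rw [h3]
          calc z = (w * (starRingEnd ℂ) w) * z := by rw [hww, one_mul]
            _ = _ := by ring
      · calc -w * (-(starRingEnd ℂ) w * z) = (w * (starRingEnd ℂ) w) * z := by ring
          _ = z := by rw [hww, one_mul]
    · rintro ⟨y, hy, rfl⟩ ⟨t, ht, hyt⟩
      rw [Complex.mem_slitPlane_iff_not_le_zero] at hy
      apply hy
      have h1 : y = -(t : ℂ) := by
        calc y = -((starRingEnd ℂ) w) * (-w * y) := by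
              calc y = (w * (starRingEnd ℂ) w) * y := by rw [hww, one_mul]
                _ = _ := by ring
          _ = -((starRingEnd ℂ) w) * (t * w) := by rw [hyt]
          _ = -((w * (starRingEnd ℂ) w) * t) := by ring
          _ = _ := by rw [hww, one_mul]
      rw [h1, Complex.le_def]
      simp [ht]
  rw [e]
  have hconn : IsPreconnected Complex.slitPlane :=
    (Complex.starConvex_one_slitPlane.isPathConnected
      Complex.one_mem_slitPlane).isConnected.isPreconnected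
  exact hconn.image _ (by fun_prop)

/-- **Rigidity of the crack tip.** -/
theorem TipData.rigid (h : TipData K v g φ) : ∃ (w : ℂ) (ε : ℝ), ‖w‖ = 1 ∧ (ε = 1 ∨ ε = -1) ∧
    K = {z | ∃ t : ℝ, 0 ≤ t ∧ z = t * w} ∧
    ∀ z : ℂ, v z = ε * Real.sqrt (φ / Real.pi * (‖z‖ - (z * (starRingEnd ℂ) w).re)) := by
  obtain ⟨w, hw1, hK, hv⟩ := h.crack
  have hpi := Real.pi_pos
  have hφpi : 0 < φ / Real.pi := div_pos h.pos hpi
  have hne : ∀ z ∈ Kᶜ, v z ≠ 0 := by
    intro z hz hcon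
    have h1 := hv z
    rw [hcon] at h1
    have h2 : φ / Real.pi * (‖z‖ - (z * (starRingEnd ℂ) w).re) = 0 := by rw [← h1]; norm_num
    have h3 : ‖z‖ - (z * (starRingEnd ℂ) w).re = 0 := by
      rcases mul_eq_zero.1 h2 with h4 | h4
      · exact absurd h4 hφpi.ne'
      · exact h4
    have h4 := tip_re_eq hw1 (z := z) (by linarith)
    apply hz
    rw [hK]
    exact ⟨‖z‖, norm_nonneg _, h4⟩
  have hpre : IsPreconnected Kᶜ := by rw [hK]; exact tip_compl_preconnected hw1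
  have habs : ∀ z, |v z| = Real.sqrt (φ / Real.pi * (‖z‖ - (z * (starRingEnd ℂ) w).re)) := by
    intro z
    rw [← hv z, Real.sqrt_sq_eq_abs]
  have hsgn : (∀ z ∈ Kᶜ, 0 < v z) ∨ (∀ z ∈ Kᶜ, v z < 0) := by
    by_contra hcon
    push Not at hcon
    obtain ⟨⟨a, haK, ha⟩, ⟨b, hbK, hb⟩⟩ := hcon
    have h1 := hpre.intermediate_value haK hbK h.cont.continuousOn
    obtain ⟨z, hzK, hz⟩ := h1 ⟨ha, hb⟩
    exact hne z hzK hz
  rcases hsgn with hs | hs
  · refine ⟨w, 1, hw1, Or.inl rfl, hK, fun z => ?_⟩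
    rw [one_mul, ← habs]
    by_cases hz : z ∈ K
    · rw [h.zero z hz, abs_zero]
    · rw [abs_of_pos (hs z hz)]
  · refine ⟨w, -1, hw1, Or.inr rfl, hK, fun z => ?_⟩
    rw [← habs]
    by_cases hz : z ∈ K
    · rw [h.zero z hz, abs_zero, mul_zero]
    · rw [abs_of_neg (hs z hz)]; ring

end Pool.Agent.MP099f24
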