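import Mathlib
import Pool.Agent.Lib.MP_099f24_an.TR.Tip
import Pool.Agent.Lib.MP_099f24_an.SC.CJDefs

/-!
# MP_099f24_an TR, module DATA: the data of the tip from the conjugate function
-/

set_option autoImplicit false

namespace Pool.Agent.MP099f24

open MeasureTheory Filter Topology Set Metric
open scoped ENNReal ContDiff

theorem tt_hasDerivAt_pc (r θ : ℝ) :
    HasDerivAt (fun s : ℝ => pc 0 r s) ((r : ℂ) * et θ) θ := by
  unfold pc er et
  have h1 : HasDerivAt (fun s : ℝ => ((s : ℂ) * Complex.I)) Complex.I θ := by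
    have := (Complex.ofRealCLM.hasDerivAt (x := θ)).mul_const Complex.I
    simpa using this
  have h2 := (h1.cexp.const_mul (r : ℂ)).const_add 0
  have h3 : Complex.exp (θ * Complex.I) * Complex.I = Complex.I * Complex.exp (θ * Complex.I) :=
    mul_comm _ _
  rw [h3] at h2
  exact h2

theorem tt_ae_Ioi {p : ℝ → Prop} (h : ∀ R : ℝ, ∀ᵐ s ∂(volume.restrict (Ioo 0 R)), p s) :
    ∀ᵐ s ∂(volume.restrict (Ioi (0 : ℝ))), p s := by
  have h1 : Ioi (0 : ℝ) = ⋃ n : ℕ, Ioo (0 : ℝ) n := by
    ext x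
    simp only [mem_Ioi, mem_iUnion, mem_Ioo]
    constructor
    · intro hx
      obtain ⟨n, hn⟩ := exists_nat_gt x
      exact ⟨n, hx, hn⟩
    · rintro ⟨n, hx, -⟩
      exact hx
  rw [h1, ae_restrict_iUnion_iff]
  exact fun n => h n

/-- the finitely many angles -/
theorem tt_countable {K : Set ℂ} {r : ℝ} (hr : 0 < r) (hf : (K ∩ sphere 0 r).Finite) :
    {θ : ℝ | pc 0 r θ ∈ K}.Countable := by
  have h1 : {θ : ℝ | pc 0 r θ ∈ K} ⊆ ⋃ x ∈ K ∩ sphere 0 r, {θ : ℝ | pc 0 r θ = x} := by
    intro θ hθ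
    refine mem_iUnion₂.2 ⟨pc 0 r θ, ⟨hθ, ?_⟩, rfl⟩
    rw [mem_sphere, polar_dist 0 hr]
  refine Countable.mono h1 (hf.countable.biUnion ?_)
  intro x _
  have h2 : {θ : ℝ | pc 0 r θ = x} ⊆ ⋃ n : ℤ, {θ : ℝ | θ = x.arg + n * (2 * Real.pi)} := by
    intro θ hθ
    have h3 : pc 0 r θ = x := hθ
    have hx : ‖x‖ = r := by
      rw [← h3, ← dist_zero_right, polar_dist 0 hr]
    have h4 : x = pc 0 r x.arg := tip_mem_pc hx
    have hr' : (r : ℂ) ≠ 0 := by exact_mod_cast hr.ne'
    have h5 : Complex.exp (θ * Complex.I) = Complex.exp (x.arg * Complex.I) := by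
      have h6 : pc 0 r θ = pc 0 r x.arg := h3.trans h4
      unfold pc er at h6
      simpa [hr'] using h6
    rw [Complex.exp_eq_exp_iff_exists_int] at h5
    obtain ⟨n, hn⟩ := h5
    refine mem_iUnion.2 ⟨n, ?_⟩
    have h6 := congrArg Complex.im hn
    simpa using h6
  exact Countable.mono h2 (countable_iUnion fun n => by
    have : {θ : ℝ | θ = x.arg + n * (2 * Real.pi)} = {x.arg + n * (2 * Real.pi)} := rfl
    rw [this]
    exact countable_singleton _)

/-- `v` is absolutely continuous on every circle which meets `K` in a finite set and on which `g` is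
square integrable -/
theorem tt_ac {K : Set ℂ} {v : ℂ → ℝ} {g : ℂ → ℂ} (h : CJ univ K v g) {r : ℝ} (hr : 0 < r)
    (hf : (K ∩ sphere 0 r).Finite)
    (hi : IntegrableOn (fun θ => ‖g (pc 0 r θ)‖ ^ 2) (Ioo (-Real.pi) Real.pi)) (α β : ℝ) :
    v (pc 0 r β) - v (pc 0 r α) =
      ∫ θ in α..β, r * inner ℝ (Complex.I * g (pc 0 r θ)) (et θ) := by
  have hcont : Continuous (fun θ : ℝ => v (pc 0 r θ)) := by
    have h1 : Continuous v := continuousOn_univ.1 h.cont
    exact h1.comp ((polar_pc_cont 0).comp (continuous_const.prodMk continuous_id))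
  have hper : Function.Periodic (fun θ : ℝ => ‖g (pc 0 r θ)‖ ^ 2) (2 * Real.pi) := by
    intro θ
    simp only [tipc_pc_periodic]
  have hgm : Measurable (fun θ : ℝ => g (pc 0 r θ)) := h.meas_g.comp
    ((polar_pc_cont 0).comp (continuous_const.prodMk continuous_id)).measurable
  have hloc : ∀ a b : ℝ, IntervalIntegrable (fun θ => ‖g (pc 0 r θ)‖ ^ 2) volume a b := by
    have h1 : IntervalIntegrable (fun θ => ‖g (pc 0 r θ)‖ ^ 2) volume (-Real.pi)
        (-Real.pi + 2 * Real.pi) := by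
      rw [intervalIntegrable_iff_integrableOn_Ioo_of_le (by linarith [Real.pi_pos])]
      have h0 : -Real.pi + 2 * Real.pi = Real.pi := by ring
      rw [h0]
      exact hi
    exact fun a b => hper.intervalIntegrable (by positivity) h1 a b
  have hint : IntervalIntegrable (fun θ => r * inner ℝ (Complex.I * g (pc 0 r θ)) (et θ))
      volume α β := by
    refine IntervalIntegrable.const_mul ?_ r
    have h2 : IntervalIntegrable (fun θ => 1 + ‖g (pc 0 r θ)‖ ^ 2) volume α β :=
      (intervalIntegrable_const).add (hloc α β)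
    refine h2.mono_fun' ?_ (Eventually.of_forall fun θ => ?_)
    · exact ((hgm.const_mul _).inner polar_et_cont.measurable).aestronglyMeasurable
    · simp only
      refine (norm_inner_le_norm _ _).trans ?_
      have h3 : ‖et θ‖ = 1 := by
        unfold et
        rw [norm_mul, Complex.norm_I, one_mul, Complex.norm_exp_ofReal_mul_I]
      rw [h3, norm_mul, Complex.norm_I, one_mul, mul_one]
      nlinarith [sq_nonneg (‖g (pc 0 r θ)‖ - 1), sq_nonneg ‖g (pc 0 r θ)‖]
  refine (integral_eq_of_hasDerivAt_off_countable _ _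
    (tt_countable hr hf) hcont.continuousOn ?_ hint).symm
  intro θ hθ
  have hx : pc 0 r θ ∈ univ \ K := ⟨mem_univ _, fun hk => hθ.2 hk⟩
  have h4 := (h.grad _ hx).comp_hasDerivAt θ (tt_hasDerivAt_pc r θ)
  rw [ilin_apply, tip_inner_smul] at h4
  exact h4

/-- the data of the tip -/
theorem tt_data {K : Set ℂ} {v : ℂ → ℝ} {g : ℂ → ℂ} {φ : ℝ} (h : CJ univ K v g) (h0 : (0 : ℂ) ∈ K)
    (hmeet : ∀ r : ℝ, 0 < r → (K ∩ sphere 0 r).Nonempty) (hφ : 0 < φ)
    (hD : ∀ r : ℝ, 0 < r → Dq g 0 r = φ * r)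
    (hfin : ∀ R : ℝ, ∀ᵐ s ∂(volume.restrict (Ioo 0 R)), (K ∩ sphere 0 s).Finite)
    (hflux : ∀ R : ℝ, ∀ᵐ s ∂(volume.restrict (Ioo 0 R)), Dq g 0 s =
      s * ∫ θ in Ioo (-Real.pi) Real.pi,
        v (pc 0 s θ) * inner ℝ (Complex.I * g (pc 0 s θ)) (er θ)) : TipData K v g φ where
  pos := hφ
  closed := by
    have h1 := h.open_compl
    rw [← compl_eq_univ_sdiff] at h1
    exact isOpen_compl_iff.1 h1
  cont := continuousOn_univ.1 h.cont
  meas := h.meas_g
  zero := fun x hx => h.zero x ⟨mem_univ _, hx⟩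
  contg := by
    have h1 : ContinuousOn (fun x => (starRingEnd ℂ) (g x)) (univ \ K) := h.hol.continuousOn
    have h2 : ContinuousOn (fun x => (starRingEnd ℂ) ((starRingEnd ℂ) (g x))) (univ \ K) :=
      Complex.continuous_conj.comp_continuousOn h1
    simp only [Complex.conj_conj] at h2
    rwa [← compl_eq_univ_sdiff] at h2
  deriv := fun x hx => h.grad x ⟨mem_univ _, hx⟩
  mem0 := h0
  meets := by
    intro r hr
    obtain ⟨x, hx, hx'⟩ := hmeet r hr
    exact ⟨x, hx, by simpa using hx'⟩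
  slice := by
    refine tt_ae_Ioi fun R => ?_
    have hd := (Dq_deriv h.meas_g (a := 0) (R := R) (fun s _ =>
      (h.fin (closedBall 0 s) (isCompact_closedBall 0 s) (subset_univ _)).mono_set
        ball_subset_closedBall)).1
    filter_upwards [hd, hfin R, hflux R, ae_restrict_mem measurableSet_Ioo] with s hs hf hfl hsR
    obtain ⟨hs1, hs2⟩ := hs
    have hs0 : 0 < s := hsR.1
    refine ⟨hs2, fun α β => tt_ac h hs0 hf hs2 α β, ?_, ?_⟩
    · have h1 : HasDerivAt (fun r : ℝ => φ * r) φ s := by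
        simpa using (hasDerivAt_id s).const_mul φ
      have h2 : HasDerivAt (Dq g 0) φ s := by
        refine h1.congr_of_eventuallyEq ?_
        filter_upwards [Ioi_mem_nhds hs0] with r hr
        exact hD r hr
      rw [← polar_TV h.meas_g 0 s hs2]
      exact hs1.unique h2
    · rw [← hfl]
      exact hD s hs0

end Pool.Agent.MP099f24
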