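import Mathlib
import Pool.Agent.Lib.MP_099f24_an.TM.Bas
import Pool.Agent.Lib.MP_099f24_an.TM.Efin
import Pool.Agent.Lib.MP_099f24_an.E2.Defs
import Pool.Agent.Lib.MP_099f24_an.SD.Fvar

/-!
# MP_099f24_an TR, module FIRST: one-sided first variation of topological minimizers
-/

set_option autoImplicit false

namespace Pool.Agent.MP099f24

open MeasureTheory Filter Topology Set Metric
open scoped ENNReal ContDiff

theorem tt_lint {w : ℂ → ℝ} {K F : Set ℂ} (hK : MeasurableSet K) (q : ℂ → ℂ → ℝ)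
    (hq : ∀ x, q x 0 = 0) :
    ∫⁻ x in F \ K, ENNReal.ofReal (q x (cgr w x)) = ∫⁻ x in F, ENNReal.ofReal (q x (tgr w K x)) := by
  have h1 : ∀ x, ENNReal.ofReal (q x (tgr w K x)) =
      Kᶜ.indicator (fun x => ENNReal.ofReal (q x (cgr w x))) x := by
    intro x
    by_cases hx : x ∈ K
    · rw [tgr_of_mem hx, indicator_of_notMem (by simpa using hx), hq]
      simp
    · rw [tgr_of_notMem hx, indicator_of_mem (by simpa using hx)]
  simp only [h1]
  rw [lintegral_indicator hK.compl, Measure.restrict_restrict hK.compl, inter_comm, Set.sdiff_eq]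

theorem tt_lint_sq {w : ℂ → ℝ} {K F : Set ℂ} (hK : MeasurableSet K) :
    ∫⁻ x in F \ K, ‖cgr w x‖ₑ ^ 2 = ∫⁻ x in F, ENNReal.ofReal (‖tgr w K x‖ ^ 2) := by
  rw [← tt_lint hK (fun _ p => ‖p‖ ^ 2) (by simp)]
  refine lintegral_congr fun x => ?_
  rw [← ofReal_norm, ENNReal.ofReal_pow (norm_nonneg _)]

theorem tt_int {u : ℂ → ℝ} {l : ℂ → Set ℂ} {K : Set ℂ} (h : TConf univ u l K) {F : Set ℂ}
    (hF : IsCompact F) : IntegrableOn (fun x => ‖tgr u K x‖ ^ 2) F := by
  have hKm : MeasurableSet K := h.measurableSet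
  refine ⟨((measurable_tgr u hKm).norm.pow_const 2).aestronglyMeasurable, ?_⟩
  rw [hasFiniteIntegral_iff_enorm]
  have h1 := (ENNReal.add_lt_top.1 (h.fin F hF (subset_univ _))).1
  rw [tt_lint_sq hKm] at h1
  refine lt_of_le_of_lt (lintegral_mono fun x => ?_) h1
  rw [Real.enorm_of_nonneg (by positivity)]

/-- If the flow `id + t X` adds to `K` a set of length at most `c t`, then the first
variation of the Dirichlet integral is at least `-c`. -/
theorem tt_first {u : ℂ → ℝ} {l : ℂ → Set ℂ} {K : Set ℂ} (h : TMin univ u l K) {X : ℂ → ℂ}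
    (hX : ContDiff ℝ ∞ X) (hXc : HasCompactSupport X) {c : ℝ} (hc : 0 ≤ c)
    (hlen : ∀ t : ℝ, 0 < t → t ≤ 1 → ∃ S : Set ℂ, (fun x => x + t • X x) '' K ⊆ K ∪ S ∧
      (μH[1] : Measure ℂ) S ≤ ENNReal.ofReal (c * t)) :
    0 ≤ (∫ x in tsupport X, (‖tgr u K x‖ ^ 2 * dv X x -
      2 * inner ℝ (fderiv ℝ X x (tgr u K x)) (tgr u K x))) + c := by
  have hKm : MeasurableSet K := h.toTConf.measurableSet
  set F := tsupport X with hFdef
  have hF : IsCompact F := hXc
  have hFm : MeasurableSet F := hF.measurableSet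
  obtain ⟨M, hM1, hM⟩ := fvar_bound hX hXc
  have hM0 : 0 ≤ M := by linarith
  set g := tgr u K with hg
  have hgm : Measurable g := measurable_tgr u hKm
  have hfinE : cen u K F < ⊤ := h.fin F hF (subset_univ _)
  have hfin : (μH[1] : Measure ℂ) (K ∩ F) < ⊤ := (ENNReal.add_lt_top.1 hfinE).2
  have hgint : IntegrableOn (fun x => ‖g x‖ ^ 2) F := tt_int h.toTConf hF
  set I1 := ∫ x in F, (‖g x‖ ^ 2 * dv X x - 2 * inner ℝ (fderiv ℝ X x (g x)) (g x)) with hI1
  set D := ∫ x in F, ‖g x‖ ^ 2 with hD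
  have hD0 : 0 ≤ D := integral_nonneg fun x => by positivity
  have hmeasB : Measurable (fun x => inner ℝ (fderiv ℝ X x (g x)) (g x)) :=
    fvar_measurable_inner hX hgm hgm
  have hint1 : IntegrableOn
      (fun x => ‖g x‖ ^ 2 * dv X x - 2 * inner ℝ (fderiv ℝ X x (g x)) (g x)) F := by
    refine Integrable.mono' (hgint.const_mul (4 * M)) ?_ ?_
    · exact (((hgm.norm.pow_const 2).mul (fvar_continuous_dv hX).measurable).sub
        (hmeasB.const_mul 2)).aestronglyMeasurable
    · refine Eventually.of_forall fun x => ?_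
      rw [Real.norm_eq_abs]
      have h1 := fvar_dv_bound hM x
      have h2 : |inner ℝ (fderiv ℝ X x (g x)) (g x)| ≤ M * ‖g x‖ ^ 2 := by
        calc _ ≤ ‖fderiv ℝ X x (g x)‖ * ‖g x‖ := abs_real_inner_le_norm _ _
          _ ≤ (‖fderiv ℝ X x‖ * ‖g x‖) * ‖g x‖ := by
            gcongr; exact ContinuousLinearMap.le_opNorm _ _
          _ ≤ (M * ‖g x‖) * ‖g x‖ := by gcongr; exact hM x
          _ = _ := by ring
      calc _ ≤ |‖g x‖ ^ 2 * dv X x| + |2 * inner ℝ (fderiv ℝ X x (g x)) (g x)| := abs_sub _ _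
        _ = ‖g x‖ ^ 2 * |dv X x| + 2 * |inner ℝ (fderiv ℝ X x (g x)) (g x)| := by
          rw [abs_mul, abs_mul, abs_of_nonneg (by positivity : 0 ≤ ‖g x‖ ^ 2), abs_two]
        _ ≤ ‖g x‖ ^ 2 * (2 * M) + 2 * (M * ‖g x‖ ^ 2) := by gcongr
        _ = _ := by ring
  -- the main inequality
  have key : ∀ t > 0, t ≤ 1 → t * M ≤ 1 / 4 → 0 ≤ (I1 + c) + t * (60 * M ^ 2 * D) := by
    intro t ht ht1 htM
    obtain ⟨Ψ, hΨ, h1, h2⟩ := fvar_diffeo hX hM1 hM ht htM
    have hid : ∀ x, x ∉ F → x + t • X x = x := by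
      intro x hx
      rw [image_eq_zero_of_notMem_tsupport hx, smul_zero, add_zero]
    have hmem : ∀ x, x ∈ F → x + t • X x ∈ F := by
      intro x hx
      by_contra hcon
      have h3 := hid _ hcon
      have h4 := congrArg Ψ h3
      rw [h1, h1] at h4
      rw [h4] at hcon
      exact hcon hx
    have hmin := efin_fvar h hX hXc (subset_univ _) hM1 hM ht htM
    obtain ⟨S, hS1, hS2⟩ := hlen t ht ht1
    have hsub : (fun x => x + t • X x) '' (K ∩ F) ⊆ (K ∩ F) ∪ S := by
      rintro _ ⟨x, ⟨hxK, hxF⟩, rfl⟩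
      rcases hS1 ⟨x, hxK, rfl⟩ with h3 | h3
      · exact Or.inl ⟨h3, hmem x hxF⟩
      · exact Or.inr h3
    have hL : (μH[1] : Measure ℂ) ((fun x => x + t • X x) '' (K ∩ F)) ≤
        (μH[1] : Measure ℂ) (K ∩ F) + ENNReal.ofReal (c * t) :=
      (measure_mono hsub).trans ((measure_union_le _ _).trans (add_le_add le_rfl hS2))
    have hnn : ∀ x, 0 ≤ ‖g x‖ ^ 2 + t * (‖g x‖ ^ 2 * dv X x -
        2 * inner ℝ (fderiv ℝ X x (g x)) (g x)) + 60 * M ^ 2 * t ^ 2 * ‖g x‖ ^ 2 := by
      intro x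
      have h3 := fvar_expand (hM x) ht.le htM (g x)
      have h4 := fvar_det_ge (hM x) ht.le htM
      refine le_trans ?_ h3
      positivity
    have hI : ∫ x in F, (‖g x‖ ^ 2 + t * (‖g x‖ ^ 2 * dv X x -
        2 * inner ℝ (fderiv ℝ X x (g x)) (g x)) + 60 * M ^ 2 * t ^ 2 * ‖g x‖ ^ 2) =
        D + t * I1 + 60 * M ^ 2 * t ^ 2 * D := by
      rw [integral_add, integral_add, integral_const_mul, integral_const_mul]
      · exact hgint
      · exact hint1.const_mul t
      · exact hgint.add (hint1.const_mul t)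
      · exact hgint.const_mul _
    have hA0 : 0 ≤ D + t * I1 + 60 * M ^ 2 * t ^ 2 * D := by
      rw [← hI]
      exact integral_nonneg hnn
    have hF1 : ∫⁻ x in F \ K, ENNReal.ofReal (‖cgr u x‖ ^ 2 + t * (‖cgr u x‖ ^ 2 * dv X x -
        2 * inner ℝ (fderiv ℝ X x (cgr u x)) (cgr u x)) + 60 * M ^ 2 * t ^ 2 * ‖cgr u x‖ ^ 2) =
        ENNReal.ofReal (D + t * I1 + 60 * M ^ 2 * t ^ 2 * D) := by
      rw [tt_lint hKm (fun x p => ‖p‖ ^ 2 + t * (‖p‖ ^ 2 * dv X x -
        2 * inner ℝ (fderiv ℝ X x p) p) + 60 * M ^ 2 * t ^ 2 * ‖p‖ ^ 2) (by simp), ← hI,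
        ← ofReal_integral_eq_lintegral_ofReal]
      · exact (hgint.add (hint1.const_mul t)).add (hgint.const_mul _)
      · exact Eventually.of_forall hnn
    have hG : cen u K F = ENNReal.ofReal D + (μH[1] : Measure ℂ) (K ∩ F) := by
      rw [cen, tt_lint_sq hKm, hD, ofReal_integral_eq_lintegral_ofReal hgint
        (Eventually.of_forall fun x => by positivity)]
    have hchain := hmin.trans (add_le_add le_rfl hL)
    rw [hF1, hG, add_comm ((μH[1] : Measure ℂ) (K ∩ F)) _, ← add_assoc,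
      ENNReal.add_le_add_iff_right hfin.ne, ← ENNReal.ofReal_add hA0 (by positivity),
      ENNReal.ofReal_le_ofReal_iff (by positivity)] at hchain
    have h5 : 0 ≤ t * ((I1 + c) + t * (60 * M ^ 2 * D)) := by linarith
    exact nonneg_of_mul_nonneg_right h5 ht
  by_contra hcon
  push Not at hcon
  set B := 60 * M ^ 2 * D with hB
  have hB0 : 0 ≤ B := by positivity
  set t := min (min 1 (1 / (4 * M))) (-(I1 + c) / (2 * (B + 1))) with ht
  have ht0 : 0 < t := by
    refine lt_min (lt_min one_pos (by positivity)) (div_pos (by linarith) (by positivity))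
  have h6 := key t ht0 ((min_le_left _ _).trans (min_le_left _ _)) (by
    calc t * M ≤ 1 / (4 * M) * M := by
          gcongr
          exact (min_le_left _ _).trans (min_le_right _ _)
      _ = 1 / 4 := by field_simp)
  have h7 : t * B ≤ -(I1 + c) / 2 := by
    calc t * B ≤ (-(I1 + c) / (2 * (B + 1))) * B := by
          gcongr
          exact min_le_right _ _
      _ ≤ (-(I1 + c) / (2 * (B + 1))) * (B + 1) := by
          gcongr
          · exact div_nonneg (by linarith) (by positivity)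
          · linarith
      _ = _ := by field_simp
  linarith

end Pool.Agent.MP099f24
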