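import Mathlib
import Pool.Agent.Lib.MP_099f24_an.TR.Data
import Pool.Agent.Lib.MP_099f24_an.TR.First
import Pool.Agent.Lib.MP_099f24_an.SD.Polar
import Pool.Agent.Lib.MP_099f24_an.TM.Bas

/-!
# MP_099f24_an TR, module AMP: the amplitude of the crack tip
-/

set_option autoImplicit false

namespace Pool.Agent.MP099f24

open MeasureTheory Filter Topology Set Metric
open scoped ENNReal ContDiff

/-! ### the length of the half line -/

theorem tt_isom {w : ℂ} (hw : ‖w‖ = 1) : Isometry (fun s : ℝ => (s : ℂ) * w) := by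
  refine Isometry.of_dist_eq fun s t => ?_
  rw [Complex.dist_eq, ← sub_mul, norm_mul, hw, mul_one, ← Complex.ofReal_sub, Complex.norm_real,
    Real.dist_eq, Real.norm_eq_abs]

theorem tt_len {w : ℂ} (hw : ‖w‖ = 1) (a b : ℝ) :
    (μH[1] : Measure ℂ) ((fun s : ℝ => (s : ℂ) * w) '' Icc a b) = ENNReal.ofReal (b - a) := by
  rw [(tt_isom hw).hausdorffMeasure_image (Or.inl zero_le_one), hausdorffMeasure_real,
    Real.volume_Icc]

theorem tt_ray_inter {w : ℂ} (hw : ‖w‖ = 1) {R : ℝ} :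
    {z : ℂ | ∃ t : ℝ, 0 ≤ t ∧ z = t * w} ∩ closedBall 0 R =
      (fun s : ℝ => (s : ℂ) * w) '' Icc 0 R := by
  have hn : ∀ t : ℝ, ‖(t : ℂ) * w‖ = |t| := fun t => by
    rw [norm_mul, hw, mul_one, Complex.norm_real, Real.norm_eq_abs]
  ext z
  simp only [mem_inter_iff, mem_ofPred_eq, mem_closedBall, dist_zero_right, mem_image, mem_Icc]
  constructor
  · rintro ⟨⟨t, ht, rfl⟩, h⟩
    rw [hn, abs_of_nonneg ht] at h
    exact ⟨t, ⟨ht, h⟩, rfl⟩
  · rintro ⟨t, ⟨ht, h⟩, rfl⟩
    refine ⟨⟨t, ht, rfl⟩, ?_⟩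
    rw [hn, abs_of_nonneg ht]
    exact h

/-! ### the gradient -/

theorem tt_normsq (z : ℂ) : ‖z‖ ^ 2 = z.re ^ 2 + z.im ^ 2 := by
  rw [← Complex.normSq_eq_norm_sq, Complex.normSq_apply]
  ring

theorem tt_inner (z w : ℂ) : inner ℝ z w = z.re * w.re + z.im * w.im := by
  rw [Complex.inner]
  simp
  ring

/-- The two quadratic expressions of the gradient of the crack tip. -/
theorem tt_quad {w z g : ℂ} {V φ : ℝ} (hw : ‖w‖ = 1) (hz : z ≠ 0)
    (hV : V ^ 2 = φ / Real.pi * (‖z‖ - (z * (starRingEnd ℂ) w).re)) (hV0 : V ≠ 0)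
    (hg : ∀ y : ℂ, 2 * V * inner ℝ (Complex.I * g) y =
      φ / Real.pi * (inner ℝ z y / ‖z‖ - inner ℝ w y)) :
    ‖g‖ ^ 2 = φ / (2 * Real.pi * ‖z‖) ∧
      ‖g‖ ^ 2 * inner ℝ z w - 2 * (inner ℝ z g * inner ℝ w g) = -(φ / (2 * Real.pi)) := by
  have hr : 0 < ‖z‖ := norm_pos_iff.2 hz
  set r := ‖z‖ with hrdef
  have hw2 : w.re ^ 2 + w.im ^ 2 = 1 := by rw [← tt_normsq, hw, one_pow]
  have hz2 : z.re ^ 2 + z.im ^ 2 = r ^ 2 := by rw [← tt_normsq]
  have e1 := hg 1
  have e2 := hg Complex.I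
  rw [tt_inner, tt_inner, tt_inner] at e1 e2
  simp only [Complex.mul_re, Complex.mul_im, Complex.I_re, Complex.I_im, Complex.one_re,
    Complex.one_im, mul_one, mul_zero, add_zero, zero_mul, one_mul, zero_sub, zero_add] at e1 e2
  have hV' : V ^ 2 = φ / Real.pi * (r - (z.re * w.re + z.im * w.im)) := by
    rw [hV]
    simp
  set κ := φ / Real.pi with hκ
  have hκ2 : φ / (2 * Real.pi) = κ / 2 := by rw [hκ]; field_simp
  have hκ3 : φ / (2 * Real.pi * r) = κ / (2 * r) := by rw [hκ]; field_simp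
  rw [hκ2, hκ3]
  set A := z.re / r with hA
  set B := z.im / r with hB
  have hzA : z.re = r * A := by rw [hA]; field_simp
  have hzB : z.im = r * B := by rw [hB]; field_simp
  have hAB : A ^ 2 + B ^ 2 = 1 := by
    have h1 : r ^ 2 * (A ^ 2 + B ^ 2) = r ^ 2 * 1 := by
      have h0 := hz2
      rw [hzA, hzB] at h0
      linarith
    exact mul_left_cancel₀ (by positivity) h1
  set a := w.re with ha
  set b := w.im with hb
  set d := 1 - (A * a + B * b) with hd
  have hVd : V ^ 2 = κ * (r * d) := by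
    rw [hV', hzA, hzB, hd]; ring
  have hV2 : V ^ 2 ≠ 0 := pow_ne_zero 2 hV0
  have hκ0 : κ ≠ 0 := fun h0 => hV2 (by rw [hVd, h0, zero_mul])
  have hd0 : d ≠ 0 := fun h0 => hV2 (by rw [hVd, h0, mul_zero, mul_zero])
  have g2 : 2 * V * g.im = -(κ * (A - a)) := by
    have : z.re / r = A := rfl
    linarith
  have g1 : 2 * V * g.re = κ * (B - b) := by
    linarith
  have hn : ‖g‖ ^ 2 = κ / (2 * r) := by
    have h1 : (4 * V ^ 2) * ‖g‖ ^ 2 = (4 * V ^ 2) * (κ / (2 * r)) := by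
      calc (4 * V ^ 2) * ‖g‖ ^ 2 = (2 * V * g.re) ^ 2 + (2 * V * g.im) ^ 2 := by
            rw [tt_normsq]; ring
        _ = κ ^ 2 * (2 * d) := by
            rw [g1, g2, hd]
            linear_combination κ ^ 2 * hAB + κ ^ 2 * hw2
        _ = (4 * V ^ 2) * (κ / (2 * r)) := by
            rw [hVd]; field_simp; ring
    exact mul_left_cancel₀ (by positivity) h1
  refine ⟨hn, ?_⟩
  have hp : inner ℝ z g * inner ℝ w g = κ * (2 - d) / 4 := by
    have h1 : (4 * V ^ 2) * (inner ℝ z g * inner ℝ w g) = (4 * V ^ 2) * (κ * (2 - d) / 4) := by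
      calc (4 * V ^ 2) * (inner ℝ z g * inner ℝ w g) =
            (z.re * (2 * V * g.re) + z.im * (2 * V * g.im)) *
            (a * (2 * V * g.re) + b * (2 * V * g.im)) := by
            rw [tt_inner, tt_inner]; ring
        _ = r * κ ^ 2 * (d * (2 - d)) := by
            rw [g1, g2, hzA, hzB, hd]
            linear_combination r * κ ^ 2 * (a ^ 2 + b ^ 2) * hAB + r * κ ^ 2 * hw2
        _ = (4 * V ^ 2) * (κ * (2 - d) / 4) := by
            rw [hVd]; ring
    exact mul_left_cancel₀ (by positivity) h1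
  rw [hp, hn, tt_inner, hzA, hzB]
  have h2 : r * A * a + r * B * b = r * (1 - d) := by rw [hd]; ring
  rw [h2]
  field_simp
  ring

/-! ### the cut-off -/

/-- the radial cut-off `1` for `|x| ≤ 1`, `0` for `|x|² ≥ 2` -/
noncomputable def ttEta (x : ℂ) : ℝ := Real.smoothTransition (2 - ‖x‖ ^ 2)

theorem ttEta_smooth : ContDiff ℝ ∞ ttEta := by
  unfold ttEta
  exact Real.smoothTransition.contDiff.comp (contDiff_const.sub (contDiff_norm_sq ℝ))

theorem ttEta_zero {x : ℂ} (hx : 2 ≤ ‖x‖ ^ 2) : ttEta x = 0 :=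
  Real.smoothTransition.zero_of_nonpos (by linarith)

theorem ttEta_mem (x : ℂ) : ttEta x ∈ Icc (0 : ℝ) 1 :=
  ⟨Real.smoothTransition.nonneg _, Real.smoothTransition.le_one _⟩

theorem ttEta_fderiv (x v : ℂ) :
    fderiv ℝ ttEta x v = -(2 * deriv Real.smoothTransition (2 - ‖x‖ ^ 2) * inner ℝ x v) := by
  have h1 : HasFDerivAt (fun x : ℂ => 2 - ‖x‖ ^ 2) (-(2 • innerSL ℝ x)) x :=
    (hasStrictFDerivAt_norm_sq x).hasFDerivAt.const_sub 2
  have h2 : HasDerivAt Real.smoothTransition (deriv Real.smoothTransition (2 - ‖x‖ ^ 2))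
      (2 - ‖x‖ ^ 2) :=
    ((Real.smoothTransition.contDiff (n := 1)).differentiable (by simp) _).hasDerivAt
  have h3 := h2.comp_hasFDerivAt x h1
  have h4 : ttEta = Real.smoothTransition ∘ fun x : ℂ => 2 - ‖x‖ ^ 2 := rfl
  rw [h4, h3.fderiv]
  simp
  ring

/-- the vector field -/
noncomputable def ttX (w : ℂ) (x : ℂ) : ℂ := -(ttEta x • w)

theorem ttX_smooth (w : ℂ) : ContDiff ℝ ∞ (ttX w) := (ttEta_smooth.smul contDiff_const).neg

theorem ttX_fderiv (w x v : ℂ) : fderiv ℝ (ttX w) x v =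
    (2 * deriv Real.smoothTransition (2 - ‖x‖ ^ 2) * inner ℝ x v) • w := by
  have h1 : HasFDerivAt ttEta (fderiv ℝ ttEta x) x :=
    (ttEta_smooth.differentiable (by simp) x).hasFDerivAt
  have h2 := (h1.smul_const w).neg
  have h3 : fderiv ℝ (ttX w) x = -((fderiv ℝ ttEta x).smulRight w) := h2.fderiv
  rw [h3]
  simp only [_root_.neg_apply, ContinuousLinearMap.smulRight_apply, ttEta_fderiv, neg_smul,
    neg_neg]

theorem ttX_supp (w : ℂ) : tsupport (ttX w) ⊆ closedBall 0 2 := by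
  refine closure_minimal ?_ isClosed_closedBall
  intro x hx
  rw [mem_closedBall, dist_zero_right]
  by_contra hcon
  push Not at hcon
  apply hx
  unfold ttX
  rw [ttEta_zero (by nlinarith), zero_smul, neg_zero]

theorem ttX_compact (w : ℂ) : HasCompactSupport (ttX w) :=
  (isCompact_closedBall 0 2).of_isClosed_subset (isClosed_tsupport _) (ttX_supp w)

/-- the integral of the radial function -/
theorem tt_radial_int :
    ∫ x in closedBall (0 : ℂ) 2, deriv Real.smoothTransition (2 - ‖x‖ ^ 2) = Real.pi := by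
  have hcd : Continuous (deriv Real.smoothTransition) :=
    (Real.smoothTransition.contDiff (n := 1)).continuous_deriv (by simp)
  have hcont : Continuous fun x : ℂ => deriv Real.smoothTransition (2 - ‖x‖ ^ 2) := by
    fun_prop
  have h0 : (closedBall (0 : ℂ) 2 : Set ℂ) =ᵐ[volume] ball (0 : ℂ) 2 := by
    rw [← ball_union_sphere]
    exact union_ae_eq_left_of_ae_eq_empty
      (ae_eq_empty.2 (Measure.addHaar_sphere volume (0 : ℂ) 2))
  have h1 : (closedBall (0 : ℂ) 2 : Set ℂ) =ᵐ[volume] {x | dist x 0 ∈ Ioo (0 : ℝ) 2} :=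
    h0.trans (polar_ball_ae 0 two_pos)
  rw [setIntegral_congr_set h1]
  have hi : IntegrableOn (fun x : ℂ => deriv Real.smoothTransition (2 - ‖x‖ ^ 2))
      {x | dist x 0 ∈ Ioo (0 : ℝ) 2} :=
    (hcont.continuousOn.integrableOn_compact (isCompact_closedBall (0 : ℂ) 2)).mono_set
      (fun x hx => hx.2.le)
  rw [(polar_iter 0 measurableSet_Ioo (fun r hr => hr.1) hi).1]
  have h2 : ∀ r ∈ Ioo (0 : ℝ) 2, r * ∫ θ in Ioo (-Real.pi) Real.pi,
      deriv Real.smoothTransition (2 - ‖pc 0 r θ‖ ^ 2) =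
      Real.pi * (deriv Real.smoothTransition (2 - r ^ 2) * (2 * r)) := by
    intro r hr
    have h3 : ∀ θ, ‖pc 0 r θ‖ = r := fun θ => by
      rw [← dist_zero_right, polar_dist 0 hr.1]
    simp only [h3]
    rw [setIntegral_const]
    simp only [Measure.real, Real.volume_Ioo, smul_eq_mul]
    rw [ENNReal.toReal_ofReal (by linarith [Real.pi_pos])]
    ring
  rw [setIntegral_congr_fun measurableSet_Ioo h2, ← integral_Ioc_eq_integral_Ioo,
    ← intervalIntegral.integral_of_le zero_le_two, intervalIntegral.integral_const_mul]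
  have h4 : ∫ r in (0 : ℝ)..2, deriv Real.smoothTransition (2 - r ^ 2) * (2 * r) =
      -Real.smoothTransition (2 - 2 ^ 2) - -Real.smoothTransition (2 - 0 ^ 2) := by
    refine intervalIntegral.integral_eq_sub_of_hasDerivAt
      (f := fun r => -Real.smoothTransition (2 - r ^ 2)) (fun r _ => ?_) ?_
    · have h5 : HasDerivAt (fun r : ℝ => 2 - r ^ 2) (-(2 * r)) r := by
        simpa using (hasDerivAt_pow 2 r).const_sub 2
      have h6 : HasDerivAt Real.smoothTransition (deriv Real.smoothTransition (2 - r ^ 2))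
          (2 - r ^ 2) :=
        ((Real.smoothTransition.contDiff (n := 1)).differentiable (by simp) _).hasDerivAt
      have h7 := (h6.comp r h5).neg
      have h8 : -(deriv Real.smoothTransition (2 - r ^ 2) * -(2 * r)) =
          deriv Real.smoothTransition (2 - r ^ 2) * (2 * r) := by ring
      rw [h8] at h7
      exact h7
    · exact (Continuous.intervalIntegrable (by fun_prop) _ _)
  rw [h4, Real.smoothTransition.zero_of_nonpos (by norm_num),
    Real.smoothTransition.one_of_one_le (by norm_num)]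
  ring

/-! ### the amplitude -/

/-- For a crack tip with amplitude `φ`, minimality implies `φ ≤ 1`. -/
theorem tt_amp {u : ℂ → ℝ} {l : ℂ → Set ℂ} {K : Set ℂ} (h : TMin univ u l K) {w : ℂ} (hw : ‖w‖ = 1)
    (hK : K = {z | ∃ t : ℝ, 0 ≤ t ∧ z = t * w}) {φ : ℝ}
    (hq : ∀ z, z ∉ K → ‖tgr u K z‖ ^ 2 * inner ℝ z w -
      2 * (inner ℝ z (tgr u K z) * inner ℝ w (tgr u K z)) = -(φ / (2 * Real.pi))) : φ ≤ 1 := by
  have hlen : ∀ t : ℝ, 0 < t → t ≤ 1 → ∃ S : Set ℂ, (fun x => x + t • ttX w x) '' K ⊆ K ∪ S ∧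
      (μH[1] : Measure ℂ) S ≤ ENNReal.ofReal (1 * t) := by
    intro t ht ht1
    refine ⟨(fun s : ℝ => (s : ℂ) * w) '' Icc (-t) 0, ?_, ?_⟩
    · rintro _ ⟨x, hx, rfl⟩
      rw [hK] at hx
      obtain ⟨s, hs, rfl⟩ := hx
      have he := ttEta_mem ((s : ℂ) * w)
      have h1 : t * ttEta (s * w) ≤ t * 1 := mul_le_mul_of_nonneg_left he.2 ht.le
      have h2 : (s : ℂ) * w + t • ttX w (s * w) = ((s - t * ttEta (s * w) : ℝ) : ℂ) * w := by
        simp only [ttX, Complex.real_smul]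
        push_cast
        ring
      simp only [h2]
      rcases le_total 0 (s - t * ttEta (s * w)) with h3 | h3
      · left
        rw [hK]
        exact ⟨_, h3, rfl⟩
      · right
        exact ⟨_, ⟨by linarith, h3⟩, rfl⟩
    · rw [tt_len hw]
      apply ENNReal.ofReal_le_ofReal
      linarith
  have hfirst := tt_first h (ttX_smooth w) (ttX_compact w) zero_le_one hlen
  have hF0 : ∀ x, x ∉ tsupport (ttX w) → ‖tgr u K x‖ ^ 2 * dv (ttX w) x -
      2 * inner ℝ (fderiv ℝ (ttX w) x (tgr u K x)) (tgr u K x) = 0 := by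
    intro x hx
    have h3 : x ∉ tsupport (fderiv ℝ (ttX w)) := fun h' => hx (tsupport_fderiv_subset ℝ h')
    have h4 : fderiv ℝ (ttX w) x = 0 := image_eq_zero_of_notMem_tsupport h3
    unfold dv
    rw [h4]
    simp
  rw [setIntegral_eq_integral_of_forall_compl_eq_zero hF0,
    ← setIntegral_eq_integral_of_forall_compl_eq_zero
      (s := closedBall (0 : ℂ) 2) (fun x hx => hF0 x (fun h' => hx (ttX_supp w h')))] at hfirst
  have hK0 : volume K = 0 := h.toTConf.volume_eq_zero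
  have hint : ∫ x in closedBall 0 2, (‖tgr u K x‖ ^ 2 * dv (ttX w) x -
      2 * inner ℝ (fderiv ℝ (ttX w) x (tgr u K x)) (tgr u K x)) =
      ∫ x in closedBall (0 : ℂ) 2, -(φ / Real.pi) * deriv Real.smoothTransition (2 - ‖x‖ ^ 2) := by
    refine setIntegral_congr_ae measurableSet_closedBall ?_
    have h3 : ∀ᵐ x ∂(volume : Measure ℂ), x ∉ K := by
      rw [ae_iff]
      simpa using hK0
    filter_upwards [h3] with x hx _
    have h4 := hq x hx
    have h5 : dv (ttX w) x = 2 * deriv Real.smoothTransition (2 - ‖x‖ ^ 2) * inner ℝ x w := by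
      unfold dv
      rw [ttX_fderiv, ttX_fderiv, tt_inner, tt_inner, tt_inner]
      simp
      ring
    rw [h5, ttX_fderiv, real_inner_smul_left]
    linear_combination 2 * deriv Real.smoothTransition (2 - ‖x‖ ^ 2) * h4
  rw [hint, integral_const_mul, tt_radial_int] at hfirst
  have h6 : -(φ / Real.pi) * Real.pi = -φ := by field_simp
  rw [h6] at hfirst
  linarith

/-- The lower density bound gives `1 ≤ φ`. -/
theorem tt_amp_lower {u : ℂ → ℝ} {l : ℂ → Set ℂ} {K : Set ℂ} (h : TMin univ u l K) {w : ℂ}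
    (hw : ‖w‖ = 1) (hK : K = {z | ∃ t : ℝ, 0 ≤ t ∧ z = t * w}) {φ : ℝ} (hφ : 0 ≤ φ)
    (hD : Dq (tgr u K) 0 1 = φ) : 1 ≤ φ := by
  have h0 : (0 : ℂ) ∈ K := by
    rw [hK]
    exact ⟨0, le_rfl, by simp⟩
  have hKm : MeasurableSet K := h.toTConf.measurableSet
  have hd := h.dens 0 h0 1 one_pos (subset_univ _)
  have h1 : cen u K (ball 0 1) ≤ ENNReal.ofReal (φ + 1) := by
    unfold cen
    rw [ENNReal.ofReal_add hφ zero_le_one]
    refine add_le_add ?_ ?_
    · have h3 : IntegrableOn (fun x => ‖tgr u K x‖ ^ 2) (ball 0 1) :=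
        (tt_int h.toTConf (isCompact_closedBall 0 1)).mono_set ball_subset_closedBall
      rw [← hD, Dq, ofReal_integral_eq_lintegral_ofReal h3
        (Eventually.of_forall fun x => by positivity), tt_lint_sq hKm]
    · have h4 : K ∩ ball 0 1 ⊆ (fun s : ℝ => (s : ℂ) * w) '' Icc 0 1 := by
        rw [← tt_ray_inter hw, ← hK]
        exact inter_subset_inter_right _ ball_subset_closedBall
      refine (measure_mono h4).trans ?_
      rw [tt_len hw, sub_zero]
  have h5 := hd.trans h1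
  rw [ENNReal.ofReal_le_ofReal_iff (by linarith)] at h5
  linarith

/-- Global elements with `D(r) = φ r`, `φ > 0`, are crack tips. `v` is the conjugate function. -/
theorem tt_tip_of {u : ℂ → ℝ} {K : Set ℂ} {l : ℂ → Set ℂ} (h : TMin univ u l K) {v : ℂ → ℝ} {φ : ℝ}
    (hT : TipData K v (tgr u K) φ) (hD : ∀ r : ℝ, 0 < r → Dq (tgr u K) 0 r = φ * r) :
    φ = 1 ∧ ∃ e : ℂ, ‖e‖ = 1 ∧ K = {z | ∃ t : ℝ, 0 ≤ t ∧ z = t * e} ∧
      ∀ z : ℂ, z ∉ K → ‖tgr u K z‖ = 1 / Real.sqrt (2 * Real.pi * ‖z‖) := by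
  obtain ⟨w, hw, hK, hv⟩ := hT.crack
  have hquad : ∀ z, z ∉ K → ‖tgr u K z‖ ^ 2 = φ / (2 * Real.pi * ‖z‖) ∧
      ‖tgr u K z‖ ^ 2 * inner ℝ z w -
      2 * (inner ℝ z (tgr u K z) * inner ℝ w (tgr u K z)) = -(φ / (2 * Real.pi)) := by
    intro z hz
    have hz0 : z ≠ 0 := fun h0 => hz (h0 ▸ hT.mem0)
    have hr : 0 < ‖z‖ := norm_pos_iff.2 hz0
    have hV0 : v z ≠ 0 := by
      intro h0
      have h2 := hv z
      rw [h0, zero_pow two_ne_zero] at h2
      have h3 : ‖z‖ - (z * (starRingEnd ℂ) w).re = 0 := by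
        rcases mul_eq_zero.1 h2.symm with h4 | h4
        · exact absurd h4 (div_pos hT.pos Real.pi_pos).ne'
        · exact h4
      apply hz
      rw [hK]
      exact ⟨‖z‖, hr.le, tip_re_eq hw (by linarith)⟩
    refine tt_quad hw hz0 (hv z) hV0 ?_
    intro y
    have d1 : HasFDerivAt (fun x => v x ^ 2)
        ((2 * v z) • innerSL ℝ (Complex.I * tgr u K z)) z := by
      have := (hT.deriv z hz).pow 2
      simpa using this
    have d2 : HasFDerivAt (fun x : ℂ => ‖x‖) (‖z‖⁻¹ • innerSL ℝ z) z := by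
      have h5 := (hasStrictFDerivAt_norm_sq z).hasFDerivAt.sqrt (by positivity)
      simp only [Real.sqrt_sq (norm_nonneg _)] at h5
      have h6 : (1 / (2 * ‖z‖)) • (2 • innerSL ℝ z) = ‖z‖⁻¹ • innerSL ℝ z := by
        rw [← Nat.cast_smul_eq_nsmul ℝ, smul_smul]
        congr 1
        push_cast
        field_simp
      rw [← h6]
      exact h5
    have d3 : HasFDerivAt (fun x : ℂ => (x * (starRingEnd ℂ) w).re) (innerSL ℝ w) z := by
      have h5 : (fun x : ℂ => (x * (starRingEnd ℂ) w).re) = fun x => innerSL ℝ w x := by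
        funext x
        rw [innerSL_apply_apply, tt_inner]
        simp
        ring
      rw [h5]
      exact (innerSL ℝ w).hasFDerivAt
    have d4 : HasFDerivAt (fun x => v x ^ 2)
        ((φ / Real.pi) • (‖z‖⁻¹ • innerSL ℝ z - innerSL ℝ w)) z := by
      have h5 : (fun x => v x ^ 2) =
          fun x => φ / Real.pi * (‖x‖ - (x * (starRingEnd ℂ) w).re) := funext hv
      rw [h5]
      exact (d2.sub d3).const_mul _
    have h6 := congrArg (fun L : ℂ →L[ℝ] ℝ => L y) (d1.unique d4)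
    simp only [_root_.smul_apply, _root_.sub_apply, innerSL_apply_apply,
      smul_eq_mul] at h6
    rw [h6]
    ring
  have h1 : φ = 1 := by
    refine le_antisymm (tt_amp h hw hK fun z hz => (hquad z hz).2) ?_
    exact tt_amp_lower h hw hK hT.pos.le (by rw [hD 1 one_pos, mul_one])
  refine ⟨h1, w, hw, hK, fun z hz => ?_⟩
  have h2 := (hquad z hz).1
  rw [h1] at h2
  have hz0 : z ≠ 0 := fun h0 => hz (h0 ▸ hT.mem0)
  have hr : 0 < ‖z‖ := norm_pos_iff.2 hz0
  have h3 : 0 < 2 * Real.pi * ‖z‖ := by positivity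
  rw [← Real.sqrt_sq (norm_nonneg (tgr u K z)), h2, Real.sqrt_div zero_le_one, Real.sqrt_one]

end Pool.Agent.MP099f24
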