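import Mathlib
import Pool.Agent.Lib.MP_099f24_an.TR.Amp
import Pool.Agent.Lib.MP_099f24_an.SC.Bonnet

/-!
# MP_099f24_an TR, module ASM: global elements with `D(r) = φ r`, `φ > 0`, are crack tips
-/

set_option autoImplicit false

namespace Pool.Agent.MP099f24

open MeasureTheory Filter Topology Set Metric
open scoped ENNReal ContDiff

/-- Section 5 of the outline for `φ > 0`. -/
theorem tt_tip {u : ℂ → ℝ} {l : ℂ → Set ℂ} {K : Set ℂ} (h : TMin univ u l K) {v : ℂ → ℝ}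
    (hcj : CJ univ K v (tgr u K)) (h0 : (0 : ℂ) ∈ K)
    (hmeet : ∀ r : ℝ, 0 < r → (K ∩ sphere 0 r).Nonempty) {φ : ℝ} (hφ : 0 < φ)
    (hD : ∀ r : ℝ, 0 < r → Dq (tgr u K) 0 r = φ * r) :
    φ = 1 ∧ ∃ e : ℂ, ‖e‖ = 1 ∧ K = {z | ∃ t : ℝ, 0 ≤ t ∧ z = t * e} ∧
      ∀ z : ℂ, z ∉ K → ‖tgr u K z‖ = 1 / Real.sqrt (2 * Real.pi * ‖z‖) :=
  tt_tip_of h (tt_data hcj h0 hmeet hφ hD (fun _ => cj_finite hcj (subset_univ _))
    (fun _ => cj_flux hcj (subset_univ _))) hD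

end Pool.Agent.MP099f24
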