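import Mathlib

/-!
# MP_099f24_an TR, module WIRD: the Wirtinger inequality with zero boundary values, with equality
-/

namespace Pool.Agent.MP099f24

open MeasureTheory Filter Topology Set Metric
open scoped ENNReal ContDiff

/-- Cauchy-Schwarz for the primitive. -/
theorem wird_cs {a b : ℝ} (hab : a ≤ b) {G : ℝ → ℝ}
    (hG : MemLp G 2 (volume.restrict (Ioc a b))) :
    (∫ t in a..b, G t) ^ 2 ≤ (b - a) * ∫ t in a..b, G t ^ 2 := by
  have hG1 : IntegrableOn G (Ioc a b) := hG.integrable (by norm_num)
  have hG2 : IntegrableOn (fun t => G t ^ 2) (Ioc a b) := hG.integrable_sq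
  rw [intervalIntegral.integral_of_le hab, intervalIntegral.integral_of_le hab]
  rcases hab.eq_or_lt with rfl | hlt
  · simp
  set m : ℝ := (∫ t in Ioc a b, G t) / (b - a) with hm
  have hL : 0 < b - a := sub_pos.2 hlt
  have h1 : 0 ≤ ∫ t in Ioc a b, (G t - m) ^ 2 := integral_nonneg fun t => sq_nonneg _
  have h2 : ∫ t in Ioc a b, (G t - m) ^ 2 =
      (∫ t in Ioc a b, G t ^ 2) - 2 * m * (∫ t in Ioc a b, G t) + m ^ 2 * (b - a) := by
    have e : ∀ t, (G t - m) ^ 2 = (G t ^ 2 - 2 * m * G t) + m ^ 2 := fun t => by ring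
    simp_rw [e]
    rw [integral_add, integral_sub hG2 (hG1.const_mul _), integral_const_mul, integral_const]
    · simp [Measure.real, hab, mul_comm]
    · exact hG2.sub (hG1.const_mul _)
    · exact integrable_const _
  rw [h2] at h1
  have h3 : (∫ t in Ioc a b, G t) = m * (b - a) := by rw [hm]; field_simp
  rw [h3] at h1 ⊢
  nlinarith [mul_nonneg hL.le h1]

/-- Integration by parts against the square of a primitive. -/
theorem wird_ibp {p q : ℝ} {G : ℝ → ℝ} (hG : IntervalIntegrable G volume p q) {a b : ℝ}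
    (hab : a ≤ b) (hsub : Icc a b ⊆ uIcc p q) {c c' : ℝ → ℝ}
    (hc : ∀ x ∈ Icc a b, HasDerivAt c (c' x) x) (hc' : ContinuousOn c' (Icc a b)) :
    2 * ∫ x in a..b, c x * (∫ t in p..x, G t) * G x =
      c b * (∫ t in p..b, G t) ^ 2 - c a * (∫ t in p..a, G t) ^ 2 -
        ∫ x in a..b, c' x * (∫ t in p..x, G t) ^ 2 := by
  set P : ℝ → ℝ := fun x => ∫ t in p..x, G t with hP
  have hPac : AbsolutelyContinuousOnInterval P a b :=
    (hG.absolutelyContinuousOnInterval_intervalIntegral left_mem_uIcc).mono
      (by rw [uIcc_of_le hab]; exact hsub)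
  have hPd : ∀ᵐ x, x ∈ uIcc p q → HasDerivAt P (G x) x := by
    filter_upwards [hG.ae_hasDerivAt_integral] with x hx hxm
    exact hx hxm p left_mem_uIcc
  obtain ⟨C, hC⟩ := isCompact_Icc.exists_bound_of_continuousOn hc'
  have hcac : AbsolutelyContinuousOnInterval c a b := by
    refine LipschitzOnWith.absolutelyContinuousOnInterval (K := C.toNNReal) ?_
    rw [uIcc_of_le hab]
    refine Convex.lipschitzOnWith_of_nnnorm_hasDerivWithin_le (convex_Icc a b)
      (fun x hx => (hc x hx).hasDerivWithinAt) (fun x hx => ?_)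
    rw [← NNReal.coe_le_coe, coe_nnnorm]
    exact (hC x hx).trans (Real.le_coe_toNNReal C)
  have hcP := hcac.mul hPac
  have h := hcP.integral_mul_deriv_eq_deriv_mul hPac
  have hGab : IntervalIntegrable G volume a b := by
    refine hG.mono_set ?_
    rw [uIcc_of_le hab]; exact hsub
  have hPc : ContinuousOn P (Icc a b) := by
    have := hPac.continuousOn
    rwa [uIcc_of_le hab] at this
  have hcc : ContinuousOn c (Icc a b) := fun x hx => (hc x hx).continuousAt.continuousWithinAt
  have e1 : ∫ x in a..b, (c * P) x * deriv P x = ∫ x in a..b, c x * P x * G x := by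
    apply intervalIntegral.integral_congr_ae
    filter_upwards [hPd] with x hx hxm
    have hxi : x ∈ Icc a b := by
      rw [uIoc_of_le hab] at hxm
      exact Ioc_subset_Icc_self hxm
    rw [(hx (hsub hxi)).deriv]
    rfl
  have e2 : ∫ x in a..b, deriv (c * P) x * P x =
      ∫ x in a..b, (c' x * P x ^ 2 + c x * P x * G x) := by
    apply intervalIntegral.integral_congr_ae
    filter_upwards [hPd] with x hx hxm
    have hxi : x ∈ Icc a b := by
      rw [uIoc_of_le hab] at hxm
      exact Ioc_subset_Icc_self hxm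
    rw [((hc x hxi).mul (hx (hsub hxi))).deriv]
    ring
  rw [e1, e2, intervalIntegral.integral_add] at h
  · simp only [Pi.mul_apply] at h
    have : (∫ x in a..b, c x * P x * G x) + (∫ x in a..b, c x * P x * G x) =
        c b * P b * P b - c a * P a * P a - ∫ x in a..b, c' x * P x ^ 2 := by linarith
    linarith [this]
  · apply ContinuousOn.intervalIntegrable
    rw [uIcc_of_le hab]
    exact hc'.mul (hPc.pow 2)
  · refine hGab.continuousOn_mul ?_
    rw [uIcc_of_le hab]
    exact hcc.mul hPc

variable {p L : ℝ} {G : ℝ → ℝ}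

/-- the cotangent at scale `L` -/
noncomputable def wcot (p L x : ℝ) : ℝ :=
  Real.cos (Real.pi / L * (x - p)) / Real.sin (Real.pi / L * (x - p))

theorem wird_sin_pos (hL : 0 < L) {x : ℝ} (hx : x ∈ Ioo p (p + L)) :
    0 < Real.sin (Real.pi / L * (x - p)) := by
  have hpi := Real.pi_pos
  apply Real.sin_pos_of_pos_of_lt_pi
  · have : 0 < x - p := by linarith [hx.1]
    positivity
  · have h1 : x - p < L := by linarith [hx.2]
    calc Real.pi / L * (x - p) < Real.pi / L * L := by
          apply mul_lt_mul_of_pos_left h1; positivity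
      _ = Real.pi := by field_simp

theorem wird_cot_deriv (hL : 0 < L) {x : ℝ} (hx : x ∈ Ioo p (p + L)) :
    HasDerivAt (wcot p L) (-(Real.pi / L) * (1 + wcot p L x ^ 2)) x := by
  have hs := (wird_sin_pos hL hx).ne'
  have h0 : HasDerivAt (fun y : ℝ => Real.pi / L * (y - p)) (Real.pi / L) x := by
    simpa using ((hasDerivAt_id x).sub_const p).const_mul (Real.pi / L)
  have h1 := (h0.cos).div (h0.sin) hs
  refine h1.congr_deriv ?_
  rw [wcot]
  generalize Real.sin (Real.pi / L * (x - p)) = S at hs ⊢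
  generalize Real.cos (Real.pi / L * (x - p)) = C
  field_simp
  ring

/-- the key identity: `∫ (G - λ cot F)² = ∫ G² - λ² ∫ F² - λ [cot F²]` on compact subintervals -/
theorem wird_identity (hL : 0 < L) (hG : MemLp G 2 (volume.restrict (Ioc p (p + L))))
    {a b : ℝ} (hpa : p < a) (hab : a ≤ b) (hb : b < p + L) :
    ∫ x in a..b, (G x - Real.pi / L * (wcot p L x * ∫ t in p..x, G t)) ^ 2 =
      (∫ x in a..b, G x ^ 2) - (Real.pi / L) ^ 2 * (∫ x in a..b, (∫ t in p..x, G t) ^ 2) -
        Real.pi / L * (wcot p L b * (∫ t in p..b, G t) ^ 2 -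
          wcot p L a * (∫ t in p..a, G t) ^ 2) := by
  have hpL : p ≤ p + L := by linarith
  have hGi : IntervalIntegrable G volume p (p + L) := by
    rw [intervalIntegrable_iff_integrableOn_Ioc_of_le hpL]
    exact hG.integrable (by norm_num)
  have hG2 : IntervalIntegrable (fun t => G t ^ 2) volume p (p + L) := by
    rw [intervalIntegrable_iff_integrableOn_Ioc_of_le hpL]
    exact hG.integrable_sq
  have hsub : Icc a b ⊆ uIcc p (p + L) := by
    rw [uIcc_of_le hpL]
    exact Icc_subset_Icc hpa.le hb.le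
  have hsub' : ∀ x ∈ Icc a b, x ∈ Ioo p (p + L) := fun x hx =>
    ⟨hpa.trans_le hx.1, hx.2.trans_lt hb⟩
  set P : ℝ → ℝ := fun x => ∫ t in p..x, G t with hP
  have hPc : ContinuousOn P (Icc a b) :=
    (hGi.absolutelyContinuousOnInterval_intervalIntegral left_mem_uIcc).continuousOn.mono hsub
  have hcc : ContinuousOn (wcot p L) (Icc a b) := fun x hx =>
    (wird_cot_deriv hL (hsub' x hx)).continuousAt.continuousWithinAt
  have hc'c : ContinuousOn (fun x => -(Real.pi / L) * (1 + wcot p L x ^ 2)) (Icc a b) :=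
    continuousOn_const.mul (continuousOn_const.add (hcc.pow 2))
  have hibp := wird_ibp hGi hab hsub (c := wcot p L)
    (c' := fun x => -(Real.pi / L) * (1 + wcot p L x ^ 2))
    (fun x hx => wird_cot_deriv hL (hsub' x hx)) hc'c
  have hGab : IntervalIntegrable G volume a b := hGi.mono_set (by rw [uIcc_of_le hab]; exact hsub)
  have hG2ab : IntervalIntegrable (fun t => G t ^ 2) volume a b :=
    hG2.mono_set (by rw [uIcc_of_le hab]; exact hsub)
  have i1 : IntervalIntegrable (fun x => wcot p L x * P x * G x) volume a b := by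
    refine hGab.continuousOn_mul ?_
    rw [uIcc_of_le hab]
    exact hcc.mul hPc
  have i2 : IntervalIntegrable (fun x => wcot p L x ^ 2 * P x ^ 2) volume a b := by
    apply ContinuousOn.intervalIntegrable
    rw [uIcc_of_le hab]
    exact (hcc.pow 2).mul (hPc.pow 2)
  have i3 : IntervalIntegrable (fun x => P x ^ 2) volume a b := by
    apply ContinuousOn.intervalIntegrable
    rw [uIcc_of_le hab]
    exact (hPc.pow 2)
  have e1 : ∫ x in a..b, (G x - Real.pi / L * (wcot p L x * P x)) ^ 2 =
      (∫ x in a..b, G x ^ 2) - 2 * (Real.pi / L) * (∫ x in a..b, wcot p L x * P x * G x) +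
        (Real.pi / L) ^ 2 * (∫ x in a..b, wcot p L x ^ 2 * P x ^ 2) := by
    rw [← intervalIntegral.integral_const_mul, ← intervalIntegral.integral_const_mul,
      ← intervalIntegral.integral_sub hG2ab (i1.const_mul _),
      ← intervalIntegral.integral_add (hG2ab.sub (i1.const_mul _)) (i2.const_mul _)]
    congr 1
    ext x
    ring
  have e2 : ∫ x in a..b, -(Real.pi / L) * (1 + wcot p L x ^ 2) * P x ^ 2 =
      -(Real.pi / L) * ((∫ x in a..b, P x ^ 2) + ∫ x in a..b, wcot p L x ^ 2 * P x ^ 2) := by
    rw [← intervalIntegral.integral_add i3 i2, ← intervalIntegral.integral_const_mul]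
    congr 1
    ext x
    ring
  rw [e1]
  rw [e2] at hibp
  have h3 : 2 * (Real.pi / L) * (∫ x in a..b, wcot p L x * P x * G x) =
      Real.pi / L * (2 * ∫ x in a..b, wcot p L x * P x * G x) := by ring
  rw [h3, hibp]
  ring

theorem wird_cot_left (hL : 0 < L) {a : ℝ} (ha : p < a) (ha' : a ≤ p + L / 2) :
    Real.pi / L * wcot p L a * (a - p) ≤ 1 := by
  have hpi := Real.pi_pos
  set s : ℝ := Real.pi / L * (a - p) with hs
  have hs0 : 0 < s := by
    have : 0 < a - p := by linarith
    positivity
  have hs1 : s ≤ Real.pi / 2 := by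
    have : a - p ≤ L / 2 := by linarith
    calc s ≤ Real.pi / L * (L / 2) := by
          apply mul_le_mul_of_nonneg_left this; positivity
      _ = Real.pi / 2 := by field_simp
  have hsin : 0 < Real.sin s := Real.sin_pos_of_pos_of_lt_pi hs0 (by linarith)
  have h : s * Real.cos s ≤ Real.sin s := by
    rcases hs1.eq_or_lt with h | h
    · rw [h, Real.cos_pi_div_two, Real.sin_pi_div_two]; norm_num
    · have hcos : 0 < Real.cos s := Real.cos_pos_of_mem_Ioo ⟨by linarith, h⟩
      have := Real.lt_tan hs0 h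
      rw [Real.tan_eq_sin_div_cos, lt_div_iff₀ hcos] at this
      exact this.le
  have e : Real.pi / L * wcot p L a * (a - p) = s * Real.cos s / Real.sin s := by
    rw [wcot, ← hs]
    have : Real.pi / L * (Real.cos s / Real.sin s) * (a - p) =
      (Real.pi / L * (a - p)) * (Real.cos s / Real.sin s) := by ring
    rw [this, ← hs, mul_div_assoc]
  rw [e, div_le_one hsin]
  exact h

theorem wird_cot_right (hL : 0 < L) {b : ℝ} (hb : b < p + L) (hb' : p + L / 2 ≤ b) :
    -(Real.pi / L * wcot p L b * (p + L - b)) ≤ 1 := by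
  have h := wird_cot_left (p := p) hL (a := p + (p + L - b)) (by linarith) (by linarith)
  have e : wcot p L (p + (p + L - b)) = - wcot p L b := by
    rw [wcot, wcot]
    have e1 : Real.pi / L * (p + (p + L - b) - p) = Real.pi - Real.pi / L * (b - p) := by
      field_simp
      ring
    rw [e1, Real.cos_pi_sub, Real.sin_pi_sub, neg_div]
  rw [e] at h
  have e2 : p + (p + L - b) - p = p + L - b := by ring
  rw [e2] at h
  linarith

/-- On compact subintervals, with all error terms absorbed. -/
theorem wird_main (hL : 0 < L) (hG : MemLp G 2 (volume.restrict (Ioc p (p + L))))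
    (h0 : ∫ t in p..(p + L), G t = 0) {a b : ℝ} (hpa : p < a) (ha : a ≤ p + L / 2)
    (hb' : p + L / 2 ≤ b) (hb : b < p + L) :
    (∫ x in a..b, (G x - Real.pi / L * (wcot p L x * ∫ t in p..x, G t)) ^ 2) +
      (Real.pi / L) ^ 2 * (∫ x in a..b, (∫ t in p..x, G t) ^ 2) ≤ ∫ x in p..(p + L), G x ^ 2 := by
  have hpi := Real.pi_pos
  have hpL : p ≤ p + L := by linarith
  have hGi : IntervalIntegrable G volume p (p + L) := by
    rw [intervalIntegrable_iff_integrableOn_Ioc_of_le hpL]
    exact hG.integrable (by norm_num)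
  have hG2 : IntervalIntegrable (fun t => G t ^ 2) volume p (p + L) := by
    rw [intervalIntegrable_iff_integrableOn_Ioc_of_le hpL]
    exact hG.integrable_sq
  have hab : a ≤ b := ha.trans hb'
  rw [wird_identity hL hG hpa hab hb]
  have m1 : a ∈ uIcc p (p + L) := by rw [uIcc_of_le hpL]; exact ⟨hpa.le, by linarith⟩
  have m2 : b ∈ uIcc p (p + L) := by rw [uIcc_of_le hpL]; exact ⟨by linarith, hb.le⟩
  have j1 : IntervalIntegrable (fun t => G t ^ 2) volume p a :=
    hG2.mono_set (uIcc_subset_uIcc left_mem_uIcc m1)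
  have j2 : IntervalIntegrable (fun t => G t ^ 2) volume a b :=
    hG2.mono_set (uIcc_subset_uIcc m1 m2)
  have j3 : IntervalIntegrable (fun t => G t ^ 2) volume b (p + L) :=
    hG2.mono_set (uIcc_subset_uIcc m2 right_mem_uIcc)
  have hsplit : ∫ x in p..(p + L), G x ^ 2 =
      (∫ x in p..a, G x ^ 2) + (∫ x in a..b, G x ^ 2) + ∫ x in b..(p + L), G x ^ 2 := by
    rw [intervalIntegral.integral_add_adjacent_intervals j1 j2,
      intervalIntegral.integral_add_adjacent_intervals (j1.trans j2) j3]
  have hca : (∫ t in p..a, G t) ^ 2 ≤ (a - p) * ∫ t in p..a, G t ^ 2 := by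
    apply wird_cs hpa.le
    refine hG.mono_measure (Measure.restrict_mono ?_ le_rfl)
    exact Ioc_subset_Ioc_right (by linarith)
  have hcb : (∫ t in b..(p + L), G t) ^ 2 ≤ (p + L - b) * ∫ t in b..(p + L), G t ^ 2 := by
    apply wird_cs hb.le
    refine hG.mono_measure (Measure.restrict_mono ?_ le_rfl)
    exact Ioc_subset_Ioc_left (by linarith)
  have hFb : ∫ t in p..b, G t = - ∫ t in b..(p + L), G t := by
    have := intervalIntegral.integral_add_adjacent_intervals
      (hGi.mono_set (uIcc_subset_uIcc left_mem_uIcc m2))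
      (hGi.mono_set (uIcc_subset_uIcc m2 right_mem_uIcc))
    rw [h0] at this
    linarith
  have hIa : 0 ≤ ∫ t in p..a, G t ^ 2 :=
    intervalIntegral.integral_nonneg hpa.le fun t _ => sq_nonneg _
  have hIb : 0 ≤ ∫ t in b..(p + L), G t ^ 2 :=
    intervalIntegral.integral_nonneg hb.le fun t _ => sq_nonneg _
  have ka : Real.pi / L * (wcot p L a * (∫ t in p..a, G t) ^ 2) ≤ ∫ t in p..a, G t ^ 2 := by
    have hc := wird_cot_left (p := p) hL hpa ha
    have hc0 : 0 ≤ wcot p L a := by
      rw [wcot]
      apply div_nonneg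
      · apply Real.cos_nonneg_of_neg_pi_div_two_le_of_le
        · have : 0 ≤ Real.pi / L * (a - p) := by
            have : 0 ≤ a - p := by linarith
            positivity
          linarith
        · have : a - p ≤ L / 2 := by linarith
          calc Real.pi / L * (a - p) ≤ Real.pi / L * (L / 2) := by
                apply mul_le_mul_of_nonneg_left this; positivity
            _ = Real.pi / 2 := by field_simp
      · exact (wird_sin_pos hL ⟨hpa, by linarith⟩).le
    calc Real.pi / L * (wcot p L a * (∫ t in p..a, G t) ^ 2)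
        ≤ Real.pi / L * (wcot p L a * ((a - p) * ∫ t in p..a, G t ^ 2)) := by
          apply mul_le_mul_of_nonneg_left _ (by positivity)
          exact mul_le_mul_of_nonneg_left hca hc0
      _ = (Real.pi / L * wcot p L a * (a - p)) * ∫ t in p..a, G t ^ 2 := by ring
      _ ≤ 1 * ∫ t in p..a, G t ^ 2 := mul_le_mul_of_nonneg_right hc hIa
      _ = _ := one_mul _
  have kb : -(Real.pi / L * (wcot p L b * (∫ t in p..b, G t) ^ 2)) ≤
      ∫ t in b..(p + L), G t ^ 2 := by
    have hc := wird_cot_right (p := p) hL hb hb'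
    have hc0 : wcot p L b ≤ 0 := by
      rw [wcot]
      apply div_nonpos_of_nonpos_of_nonneg
      · apply Real.cos_nonpos_of_pi_div_two_le_of_le
        · have : L / 2 ≤ b - p := by linarith
          calc Real.pi / 2 = Real.pi / L * (L / 2) := by field_simp
            _ ≤ Real.pi / L * (b - p) := by
                apply mul_le_mul_of_nonneg_left this; positivity
        · have : b - p ≤ L := by linarith
          calc Real.pi / L * (b - p) ≤ Real.pi / L * L := by
                apply mul_le_mul_of_nonneg_left this; positivity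
            _ = Real.pi := by field_simp
            _ ≤ _ := by linarith
      · exact (wird_sin_pos hL ⟨by linarith, hb⟩).le
    rw [hFb, neg_sq]
    calc -(Real.pi / L * (wcot p L b * (∫ t in b..(p + L), G t) ^ 2))
        = Real.pi / L * ((-wcot p L b) * (∫ t in b..(p + L), G t) ^ 2) := by ring
      _ ≤ Real.pi / L * ((-wcot p L b) * ((p + L - b) * ∫ t in b..(p + L), G t ^ 2)) := by
          apply mul_le_mul_of_nonneg_left _ (by positivity)
          exact mul_le_mul_of_nonneg_left hcb (by linarith)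
      _ = -(Real.pi / L * wcot p L b * (p + L - b)) * ∫ t in b..(p + L), G t ^ 2 := by ring
      _ ≤ 1 * ∫ t in b..(p + L), G t ^ 2 := mul_le_mul_of_nonneg_right hc hIb
      _ = _ := one_mul _
  rw [hsplit]
  linarith

theorem wird_primitive_cont (hL : 0 < L) (hG : MemLp G 2 (volume.restrict (Ioc p (p + L)))) :
    ContinuousOn (fun x => ∫ t in p..x, G t) (Icc p (p + L)) := by
  have hpL : p ≤ p + L := by linarith
  have hGi : IntervalIntegrable G volume p (p + L) := by
    rw [intervalIntegrable_iff_integrableOn_Ioc_of_le hpL]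
    exact hG.integrable (by norm_num)
  have := (hGi.absolutelyContinuousOnInterval_intervalIntegral left_mem_uIcc).continuousOn
  rwa [uIcc_of_le hpL] at this

theorem wird_sq_intervalIntegrable (hL : 0 < L)
    (hG : MemLp G 2 (volume.restrict (Ioc p (p + L)))) :
    IntervalIntegrable (fun x => (∫ t in p..x, G t) ^ 2) volume p (p + L) := by
  have hpL : p ≤ p + L := by linarith
  apply ContinuousOn.intervalIntegrable
  rw [uIcc_of_le hpL]
  exact (wird_primitive_cont hL hG).pow 2

theorem wird_tendsto (hL : 0 < L) (hG : MemLp G 2 (volume.restrict (Ioc p (p + L)))) :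
    Tendsto (fun ε : ℝ => ∫ x in (p + ε)..(p + L - ε), (∫ t in p..x, G t) ^ 2) (𝓝[>] 0)
      (𝓝 (∫ x in p..(p + L), (∫ t in p..x, G t) ^ 2)) := by
  have hpL : p ≤ p + L := by linarith
  have hP2 := wird_sq_intervalIntegrable hL hG
  set Q : ℝ → ℝ := fun y => ∫ x in p..y, (∫ t in p..x, G t) ^ 2 with hQ
  have hQc : ContinuousOn Q (Icc p (p + L)) := by
    have := (hP2.absolutelyContinuousOnInterval_intervalIntegral left_mem_uIcc).continuousOn
    rwa [uIcc_of_le hpL] at this
  have hQp : Q p = 0 := by simp [hQ]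
  have t1 : Tendsto (fun ε : ℝ => Q (p + L - ε)) (𝓝[>] 0) (𝓝 (Q (p + L))) := by
    have hcw : ContinuousWithinAt Q (Icc p (p + L)) (p + L) := hQc _ ⟨hpL, le_rfl⟩
    refine hcw.tendsto.comp ?_
    rw [tendsto_nhdsWithin_iff]
    constructor
    · have : Tendsto (fun ε : ℝ => p + L - ε) (𝓝 0) (𝓝 (p + L - 0)) :=
        (continuous_const.sub continuous_id).tendsto 0
      rw [sub_zero] at this
      exact this.mono_left nhdsWithin_le_nhds
    · filter_upwards [Ioo_mem_nhdsGT hL] with ε hε
      exact ⟨by linarith [hε.2], by linarith [hε.1]⟩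
  have t2 : Tendsto (fun ε : ℝ => Q (p + ε)) (𝓝[>] 0) (𝓝 (Q p)) := by
    have hcw : ContinuousWithinAt Q (Icc p (p + L)) p := hQc _ ⟨le_rfl, hpL⟩
    refine hcw.tendsto.comp ?_
    rw [tendsto_nhdsWithin_iff]
    constructor
    · have : Tendsto (fun ε : ℝ => p + ε) (𝓝 0) (𝓝 (p + 0)) :=
        (continuous_const.add continuous_id).tendsto 0
      rw [add_zero] at this
      exact this.mono_left nhdsWithin_le_nhds
    · filter_upwards [Ioo_mem_nhdsGT hL] with ε hε
      exact ⟨by linarith [hε.1], by linarith [hε.2]⟩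
  have t3 := t1.sub t2
  rw [hQp, sub_zero] at t3
  refine t3.congr' ?_
  filter_upwards [Ioo_mem_nhdsGT hL] with ε hε
  simp only [hQ]
  rw [intervalIntegral.integral_interval_sub_left]
  · exact hP2.mono_set (uIcc_subset_uIcc left_mem_uIcc
      (by rw [uIcc_of_le hpL]; exact ⟨by linarith [hε.2], by linarith [hε.1]⟩))
  · exact hP2.mono_set (uIcc_subset_uIcc left_mem_uIcc
      (by rw [uIcc_of_le hpL]; exact ⟨by linarith [hε.1], by linarith [hε.2]⟩))

/-- **Wirtinger inequality with zero boundary values.** -/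
theorem wirtinger_dirichlet (hL : 0 < L) (hG : MemLp G 2 (volume.restrict (Ioc p (p + L))))
    (h0 : ∫ t in p..(p + L), G t = 0) :
    ∫ x in p..(p + L), (∫ t in p..x, G t) ^ 2 ≤
      (L / Real.pi) ^ 2 * ∫ x in p..(p + L), G x ^ 2 := by
  have hpi := Real.pi_pos
  have hb : ∀ ε : ℝ, 0 < ε → ε ≤ L / 2 → (Real.pi / L) ^ 2 *
      (∫ x in (p + ε)..(p + L - ε), (∫ t in p..x, G t) ^ 2) ≤ ∫ x in p..(p + L), G x ^ 2 := by
    intro ε h1 h2
    have h := wird_main hL hG h0 (a := p + ε) (b := p + L - ε) (by linarith) (by linarith)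
      (by linarith) (by linarith)
    have h3 : 0 ≤ ∫ x in (p + ε)..(p + L - ε),
        (G x - Real.pi / L * (wcot p L x * ∫ t in p..x, G t)) ^ 2 :=
      intervalIntegral.integral_nonneg (by linarith) fun t _ => sq_nonneg _
    linarith
  have hfin := le_of_tendsto ((wird_tendsto hL hG).const_mul ((Real.pi / L) ^ 2)) (by
    filter_upwards [Ioo_mem_nhdsGT (half_pos hL)] with ε hε
    exact hb ε hε.1 hε.2.le)
  have e : (L / Real.pi) ^ 2 * (Real.pi / L) ^ 2 = 1 := by field_simp
  calc ∫ x in p..(p + L), (∫ t in p..x, G t) ^ 2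
      = (L / Real.pi) ^ 2 * ((Real.pi / L) ^ 2 *
        ∫ x in p..(p + L), (∫ t in p..x, G t) ^ 2) := by
        rw [← mul_assoc, e, one_mul]
    _ ≤ _ := mul_le_mul_of_nonneg_left hfin (by positivity)

/-- On compact subintervals the extremal is a multiple of the sine. -/
theorem wird_eq_const (hL : 0 < L) (hG : MemLp G 2 (volume.restrict (Ioc p (p + L))))
    (h0 : ∫ t in p..(p + L), G t = 0)
    (heq : ∫ x in p..(p + L), (∫ t in p..x, G t) ^ 2 =
      (L / Real.pi) ^ 2 * ∫ x in p..(p + L), G x ^ 2)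
    {a b : ℝ} (hpa : p < a) (ha : a ≤ p + L / 2) (hb' : p + L / 2 ≤ b) (hb : b < p + L) :
    ∃ C, ∀ x ∈ Icc a b, (∫ t in p..x, G t) = C * Real.sin (Real.pi / L * (x - p)) := by
  have hpi := Real.pi_pos
  have hpL : p ≤ p + L := by linarith
  have hab : a ≤ b := ha.trans hb'
  have hGi : IntervalIntegrable G volume p (p + L) := by
    rw [intervalIntegrable_iff_integrableOn_Ioc_of_le hpL]
    exact hG.integrable (by norm_num)
  have hG2 : IntervalIntegrable (fun t => G t ^ 2) volume p (p + L) := by
    rw [intervalIntegrable_iff_integrableOn_Ioc_of_le hpL]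
    exact hG.integrable_sq
  set P : ℝ → ℝ := fun x => ∫ t in p..x, G t with hP
  have hPac : AbsolutelyContinuousOnInterval P p (p + L) :=
    hGi.absolutelyContinuousOnInterval_intervalIntegral left_mem_uIcc
  have hPc : ContinuousOn P (Icc p (p + L)) := wird_primitive_cont hL hG
  set Φ : ℝ → ℝ := fun x => (G x - Real.pi / L * (wcot p L x * P x)) ^ 2 with hΦ
  -- local square integrability of the defect
  have hΦi : ∀ a' b' : ℝ, p < a' → a' ≤ b' → b' < p + L → IntervalIntegrable Φ volume a' b' := by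
    intro a' b' h1 h2 h3
    have hsub : Icc a' b' ⊆ Icc p (p + L) := Icc_subset_Icc h1.le h3.le
    have hu : uIcc a' b' ⊆ uIcc p (p + L) := by
      rw [uIcc_of_le h2, uIcc_of_le hpL]; exact hsub
    have hcc : ContinuousOn (wcot p L) (Icc a' b') := fun x hx =>
      (wird_cot_deriv hL ⟨h1.trans_le hx.1, hx.2.trans_lt h3⟩).continuousAt.continuousWithinAt
    have i1 : IntervalIntegrable (fun x => wcot p L x * P x * G x) volume a' b' := by
      refine (hGi.mono_set hu).continuousOn_mul ?_
      rw [uIcc_of_le h2]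
      exact hcc.mul (hPc.mono hsub)
    have i2 : IntervalIntegrable (fun x => wcot p L x ^ 2 * P x ^ 2) volume a' b' := by
      apply ContinuousOn.intervalIntegrable
      rw [uIcc_of_le h2]
      exact (hcc.pow 2).mul ((hPc.mono hsub).pow 2)
    have i3 := ((hG2.mono_set hu).sub (i1.const_mul (2 * (Real.pi / L)))).add
      (i2.const_mul ((Real.pi / L) ^ 2))
    refine i3.congr (fun x _ => ?_)
    simp only [hΦ]
    ring
  have hzero : ∫ x in a..b, Φ x = 0 := by
    apply le_antisymm _ (intervalIntegral.integral_nonneg hab fun t _ => sq_nonneg _)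
    have hlim := ((wird_tendsto hL hG).const_mul ((Real.pi / L) ^ 2)).const_sub
      (∫ x in p..(p + L), G x ^ 2)
    have e0 : (∫ x in p..(p + L), G x ^ 2) -
        (Real.pi / L) ^ 2 * (∫ x in p..(p + L), (∫ t in p..x, G t) ^ 2) = 0 := by
      rw [heq]
      field_simp
      ring
    rw [e0] at hlim
    refine ge_of_tendsto hlim ?_
    have hε0 : 0 < min (a - p) (p + L - b) := lt_min (by linarith) (by linarith)
    filter_upwards [Ioo_mem_nhdsGT hε0] with ε hε
    have e1 : ε < a - p := hε.2.trans_le (min_le_left _ _)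
    have e2 : ε < p + L - b := hε.2.trans_le (min_le_right _ _)
    have h := wird_main hL hG h0 (a := p + ε) (b := p + L - ε) (by linarith [hε.1])
      (by linarith) (by linarith) (by linarith [hε.1])
    have h4 : ∫ x in a..b, Φ x ≤ ∫ x in (p + ε)..(p + L - ε), Φ x := by
      apply intervalIntegral.integral_mono_interval (by linarith) hab (by linarith)
      · exact Eventually.of_forall fun x => sq_nonneg _
      · exact hΦi _ _ (by linarith [hε.1]) (by linarith) (by linarith [hε.1])
    have h5 : ∫ x in (p + ε)..(p + L - ε), Φ x =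
        ∫ x in (p + ε)..(p + L - ε),
        (G x - Real.pi / L * (wcot p L x * ∫ t in p..x, G t)) ^ 2 := rfl
    linarith
  have hae : ∀ᵐ x, x ∈ Ioc a b → G x = Real.pi / L * (wcot p L x * P x) := by
    rw [intervalIntegral.integral_of_le hab] at hzero
    have h1 : IntegrableOn Φ (Ioc a b) := by
      rw [← intervalIntegrable_iff_integrableOn_Ioc_of_le hab]
      exact hΦi a b hpa hab hb
    have h2 := (setIntegral_eq_zero_iff_of_nonneg_ae (Eventually.of_forall fun x => sq_nonneg _)
      h1).1 hzero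
    have h3 := (ae_restrict_iff' measurableSet_Ioc).1 h2
    filter_upwards [h3] with x hx hxm
    have := hx hxm
    simp only [Pi.zero_apply] at this
    have h4 := pow_eq_zero_iff (two_ne_zero) |>.1 this
    linarith
  -- the quotient is constant
  set S : ℝ → ℝ := fun x => (Real.sin (Real.pi / L * (x - p)))⁻¹ with hS
  have hIoo : ∀ x ∈ Icc a b, x ∈ Ioo p (p + L) := fun x hx =>
    ⟨hpa.trans_le hx.1, hx.2.trans_lt hb⟩
  have hSd : ∀ x ∈ Icc a b, HasDerivAt S
      (-(Real.cos (Real.pi / L * (x - p)) * (Real.pi / L)) /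
        (Real.sin (Real.pi / L * (x - p))) ^ 2) x := by
    intro x hx
    have hs := (wird_sin_pos hL (hIoo x hx)).ne'
    have h0 : HasDerivAt (fun y : ℝ => Real.pi / L * (y - p)) (Real.pi / L) x := by
      simpa using ((hasDerivAt_id x).sub_const p).const_mul (Real.pi / L)
    exact h0.sin.inv hs
  have hSac : AbsolutelyContinuousOnInterval S a b := by
    apply ContDiffOn.absolutelyContinuousOnInterval
    rw [uIcc_of_le hab]
    intro x hx
    apply ContDiffAt.contDiffWithinAt
    have hs := (wird_sin_pos hL (hIoo x hx)).ne'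
    have h1 : ContDiffAt ℝ 1 (fun x => Real.sin (Real.pi / L * (x - p))) x := by fun_prop
    exact h1.inv hs
  have hPac' : AbsolutelyContinuousOnInterval P a b := by
    refine hPac.mono ?_
    rw [uIcc_of_le hab, uIcc_of_le hpL]
    exact Icc_subset_Icc hpa.le hb.le
  have hac := hPac'.mul hSac
  have hPd : ∀ᵐ x, x ∈ uIcc p (p + L) → HasDerivAt P (G x) x := by
    filter_upwards [hGi.ae_hasDerivAt_integral] with x hx hxm
    exact hx hxm p left_mem_uIcc
  have hd0 : ∀ᵐ x, x ∈ uIcc a b → HasDerivAt (P * S) 0 x := by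
    have hna : ∀ᵐ x : ℝ, x ≠ a := by
      rw [ae_iff]; simp
    filter_upwards [hPd, hae, hna] with x hx1 hx2 hx3 hxm
    rw [uIcc_of_le hab] at hxm
    have hxo : x ∈ Ioc a b := ⟨lt_of_le_of_ne hxm.1 (Ne.symm hx3), hxm.2⟩
    have h1 : HasDerivAt P (G x) x := hx1 (by
      rw [uIcc_of_le hpL]
      exact ⟨(hIoo x hxm).1.le, (hIoo x hxm).2.le⟩)
    refine (h1.mul (hSd x hxm)).congr_deriv ?_
    rw [hx2 hxo, wcot]
    simp only [hS]
    have hs := (wird_sin_pos hL (hIoo x hxm)).ne'
    generalize Real.sin (Real.pi / L * (x - p)) = s at hs ⊢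
    generalize Real.cos (Real.pi / L * (x - p)) = c
    field_simp
    ring
  obtain ⟨C, hC⟩ := hac.const_of_ae_hasDerivAt_zero hd0
  refine ⟨C, fun x hx => ?_⟩
  have h1 := hC x (by rw [uIcc_of_le hab]; exact hx)
  have hs := (wird_sin_pos hL (hIoo x hx)).ne'
  simp only [Pi.mul_apply, hS] at h1
  rw [← h1, mul_assoc, inv_mul_cancel₀ hs, mul_one]

/-- **Equality case of the Wirtinger inequality with zero boundary values.** -/
theorem wirtinger_dirichlet_eq (hL : 0 < L) (hG : MemLp G 2 (volume.restrict (Ioc p (p + L))))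
    (h0 : ∫ t in p..(p + L), G t = 0)
    (heq : ∫ x in p..(p + L), (∫ t in p..x, G t) ^ 2 =
      (L / Real.pi) ^ 2 * ∫ x in p..(p + L), G x ^ 2) :
    ∃ A, ∀ x ∈ Icc p (p + L), (∫ t in p..x, G t) = A * Real.sin (Real.pi / L * (x - p)) := by
  have hpi := Real.pi_pos
  refine ⟨∫ t in p..(p + L / 2), G t, ?_⟩
  intro x hx
  rcases hx.1.eq_or_lt with h1 | h1
  · rw [← h1]; simp
  rcases hx.2.eq_or_lt with h2 | h2
  · rw [h2, h0]
    have : Real.pi / L * (p + L - p) = Real.pi := by field_simp; ring
    rw [this, Real.sin_pi, mul_zero]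
  · obtain ⟨C, hC⟩ := wird_eq_const hL hG h0 heq (a := min x (p + L / 2))
      (b := max x (p + L / 2)) (lt_min h1 (by linarith)) (min_le_right _ _) (le_max_right _ _)
      (max_lt h2 (by linarith))
    have e1 := hC x ⟨min_le_left _ _, le_max_left _ _⟩
    have e2 := hC (p + L / 2) ⟨min_le_right _ _, le_max_right _ _⟩
    have e3 : Real.pi / L * (p + L / 2 - p) = Real.pi / 2 := by field_simp; ring
    rw [e3, Real.sin_pi_div_two, mul_one] at e2
    rw [e1, e2]

end Pool.Agent.MP099f24
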