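import Pool.Agent.Lib.MP_099f24_an.SD.Polar
import Pool.Agent.Lib.MP_099f24_an.TR.Wird

/-!
# MP_099f24_an TR, module TIPCIRCLE: the profile of an extremal on one circle
-/

namespace Pool.Agent.MP099f24

open MeasureTheory Filter Topology Set Metric
open scoped ENNReal ContDiff

theorem tipc_pyth (z : ℂ) (θ : ℝ) :
    (inner ℝ (Complex.I * z) (et θ)) ^ 2 + (inner ℝ (Complex.I * z) (er θ)) ^ 2 = ‖z‖ ^ 2 := by
  rw [polar_pyth, norm_mul, Complex.norm_I, one_mul]

theorem tipc_er_periodic (θ : ℝ) : er (θ + 2 * Real.pi) = er θ := by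
  rw [er, er]
  push_cast
  rw [add_mul, Complex.exp_add, Complex.exp_two_pi_mul_I, mul_one]

theorem tipc_pc_periodic (a : ℂ) (s θ : ℝ) : pc a s (θ + 2 * Real.pi) = pc a s θ := by
  rw [pc, pc, tipc_er_periodic]

theorem tipc_int_periodic {f : ℝ → ℝ} (hf : ∀ θ, f (θ + 2 * Real.pi) = f θ) (p : ℝ) :
    ∫ θ in Ioo (-Real.pi) Real.pi, f θ = ∫ θ in Ioo p (p + 2 * Real.pi), f θ := by
  have hper : Function.Periodic f (2 * Real.pi) := hf
  have h1 := hper.intervalIntegral_add_eq (-Real.pi) p
  have hpi := Real.pi_pos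
  rw [intervalIntegral.integral_of_le (by linarith), intervalIntegral.integral_of_le (by linarith),
    integral_Ioc_eq_integral_Ioo, integral_Ioc_eq_integral_Ioo] at h1
  have h2 : -Real.pi + 2 * Real.pi = Real.pi := by ring
  rw [h2] at h1
  exact h1

theorem tipc_et_periodic (θ : ℝ) : et (θ + 2 * Real.pi) = et θ := by
  have h := tipc_er_periodic θ
  have h1 : ∀ θ, et θ = Complex.I * er θ := fun θ => rfl
  rw [h1, h1, h]

/-- **The profile on a circle.** -/
theorem tip_circle {v : ℂ → ℝ} {g : ℂ → ℂ} {φ r p : ℝ} (hφ : 0 < φ) (hr : 0 < r)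
    (hgm : Measurable g) (hp : v (pc 0 r p) = 0)
    (hv : Continuous v)
    (hm : IntegrableOn (fun θ => ‖g (pc 0 r θ)‖ ^ 2) (Ioo (-Real.pi) Real.pi))
    (hac : ∀ α β : ℝ, v (pc 0 r β) - v (pc 0 r α) =
      ∫ θ in α..β, r * inner ℝ (Complex.I * g (pc 0 r θ)) (et θ))
    (hT : r * ∫ θ in Ioo (-Real.pi) Real.pi, ‖g (pc 0 r θ)‖ ^ 2 = φ)
    (hD : r * ∫ θ in Ioo (-Real.pi) Real.pi,
      v (pc 0 r θ) * inner ℝ (Complex.I * g (pc 0 r θ)) (er θ) = φ * r) :
    (∀ z : ℂ, ‖z‖ = r → v z ^ 2 =
      φ / Real.pi * (r - (z * (starRingEnd ℂ) (er p)).re)) ∧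
    (∀ᵐ θ ∂(volume.restrict (Ioc p (p + 2 * Real.pi))),
      r * inner ℝ (Complex.I * g (pc 0 r θ)) (er θ) = v (pc 0 r θ) / 2) := by
  have hpi := Real.pi_pos
  have h2pi : (0 : ℝ) < 2 * Real.pi := by positivity
  set G : ℝ → ℝ := fun θ => r * inner ℝ (Complex.I * g (pc 0 r θ)) (et θ) with hG
  set N : ℝ → ℝ := fun θ => r * inner ℝ (Complex.I * g (pc 0 r θ)) (er θ) with hN
  set f : ℝ → ℝ := fun θ => v (pc 0 r θ) with hf
  have hpcm : Measurable (fun θ => pc 0 r θ) :=
    ((polar_pc_cont 0).comp (continuous_const.prodMk continuous_id)).measurable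
  have hpcc : Continuous (fun θ => pc 0 r θ) :=
    (polar_pc_cont 0).comp (continuous_const.prodMk continuous_id)
  have hgp : Measurable (fun θ => Complex.I * g (pc 0 r θ)) := (hgm.comp hpcm).const_mul _
  have hGm : Measurable G := (hgp.inner polar_et_cont.measurable).const_mul r
  have hNm : Measurable N := (hgp.inner polar_er_cont.measurable).const_mul r
  have hfc : Continuous f := hv.comp hpcc
  have hpyth : ∀ θ, G θ ^ 2 + N θ ^ 2 = r ^ 2 * ‖g (pc 0 r θ)‖ ^ 2 := by
    intro θ
    simp only [hG, hN]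
    rw [mul_pow, mul_pow, ← mul_add, tipc_pyth]
  -- integrability on every period
  have hper : Function.Periodic (fun θ => ‖g (pc 0 r θ)‖ ^ 2) (2 * Real.pi) := by
    intro θ
    simp only
    rw [tipc_pc_periodic]
  have hii : ∀ a b : ℝ, IntervalIntegrable (fun θ => ‖g (pc 0 r θ)‖ ^ 2) volume a b := by
    refine hper.intervalIntegrable h2pi.ne' (t := -Real.pi) ?_
    rw [intervalIntegrable_iff_integrableOn_Ioc_of_le (by linarith)]
    have e : -Real.pi + 2 * Real.pi = Real.pi := by ring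
    rw [e, integrableOn_Ioc_iff_integrableOn_Ioo]
    exact hm
  have hple : p ≤ p + 2 * Real.pi := by linarith
  have hi0 : IntegrableOn (fun θ => ‖g (pc 0 r θ)‖ ^ 2) (Ioc p (p + 2 * Real.pi)) := by
    rw [← intervalIntegrable_iff_integrableOn_Ioc_of_le hple]
    exact hii _ _
  have hi1 := hi0.const_mul (r ^ 2)
  have hG2 : IntegrableOn (fun θ => G θ ^ 2) (Ioc p (p + 2 * Real.pi)) := by
    refine Integrable.mono' hi1 (hGm.pow_const 2).aestronglyMeasurable ?_
    refine Eventually.of_forall fun θ => ?_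
    rw [Real.norm_eq_abs, abs_of_nonneg (sq_nonneg _)]
    have := hpyth θ
    nlinarith [sq_nonneg (N θ)]
  have hN2 : IntegrableOn (fun θ => N θ ^ 2) (Ioc p (p + 2 * Real.pi)) := by
    refine Integrable.mono' hi1 (hNm.pow_const 2).aestronglyMeasurable ?_
    refine Eventually.of_forall fun θ => ?_
    rw [Real.norm_eq_abs, abs_of_nonneg (sq_nonneg _)]
    have := hpyth θ
    nlinarith [sq_nonneg (G θ)]
  have hGL : MemLp G 2 (volume.restrict (Ioc p (p + 2 * Real.pi))) :=
    (memLp_two_iff_integrable_sq hGm.aestronglyMeasurable).2 hG2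
  have hNL : MemLp N 2 (volume.restrict (Ioc p (p + 2 * Real.pi))) :=
    (memLp_two_iff_integrable_sq hNm.aestronglyMeasurable).2 hN2
  have hfL : MemLp f 2 (volume.restrict (Ioc p (p + 2 * Real.pi))) := by
    obtain ⟨C, hC⟩ := (isCompact_Icc (a := p) (b := p + 2 * Real.pi)).exists_bound_of_continuousOn
      hfc.continuousOn
    refine MemLp.of_bound hfc.measurable.aestronglyMeasurable C ?_
    exact (ae_restrict_iff' measurableSet_Ioc).2
      (Eventually.of_forall fun x hx => hC x (Ioc_subset_Icc_self hx))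
  have hf2 : IntegrableOn (fun θ => f θ ^ 2) (Ioc p (p + 2 * Real.pi)) := hfL.integrable_sq
  have hfN : IntegrableOn (fun θ => f θ * N θ) (Ioc p (p + 2 * Real.pi)) := by
    exact hfL.integrable_mul hNL
  -- the function is the primitive of its derivative
  have hprim : ∀ θ, f θ = ∫ t in p..θ, G t := by
    intro θ
    have := hac p θ
    rw [hp, sub_zero] at this
    exact this
  have hend : ∫ t in p..(p + 2 * Real.pi), G t = 0 := by
    rw [← hprim]
    show v (pc 0 r (p + 2 * Real.pi)) = 0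
    rw [tipc_pc_periodic]
    exact hp
  -- the integrals
  set A : ℝ := ∫ θ in Ioc p (p + 2 * Real.pi), f θ ^ 2 with hA
  set T : ℝ := ∫ θ in Ioc p (p + 2 * Real.pi), G θ ^ 2 with hTd
  set V : ℝ := ∫ θ in Ioc p (p + 2 * Real.pi), N θ ^ 2 with hV
  have hsum : T + V = φ * r := by
    rw [hTd, hV, ← integral_add hG2 hN2]
    simp_rw [hpyth]
    rw [integral_const_mul, integral_Ioc_eq_integral_Ioo,
      ← tipc_int_periodic (f := fun θ => ‖g (pc 0 r θ)‖ ^ 2) hper p]
    nlinarith [hT]
  have hfNint : ∫ θ in Ioc p (p + 2 * Real.pi), f θ * N θ = φ * r := by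
    rw [integral_Ioc_eq_integral_Ioo,
      ← tipc_int_periodic (f := fun θ => f θ * N θ) (fun θ => by
        simp only [hf, hN]; rw [tipc_pc_periodic, tipc_er_periodic]) p]
    rw [← hD, ← integral_const_mul]
    congr 1
    ext θ
    simp only [hf, hN]
    ring
  have hAT : A ≤ 4 * T := by
    have h := wirtinger_dirichlet h2pi hGL hend
    rw [intervalIntegral.integral_of_le hple, intervalIntegral.integral_of_le hple] at h
    have e : (2 * Real.pi / Real.pi) ^ 2 = 4 := by field_simp; norm_num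
    rw [e] at h
    calc A = ∫ x in Ioc p (p + 2 * Real.pi), (∫ t in p..x, G t) ^ 2 := by
          rw [hA]; simp_rw [hprim]
      _ ≤ _ := h
  -- the quadratic `∫ (N - t f)²`
  have hquad : ∀ t : ℝ, ∫ θ in Ioc p (p + 2 * Real.pi), (N θ - t * f θ) ^ 2 =
      V - 2 * t * (φ * r) + t ^ 2 * A := by
    intro t
    have e : ∀ θ, (N θ - t * f θ) ^ 2 = (N θ ^ 2 - 2 * t * (f θ * N θ)) + t ^ 2 * f θ ^ 2 :=
      fun θ => by ring
    simp_rw [e]
    have j1 : Integrable (fun θ => 2 * t * (f θ * N θ))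
        (volume.restrict (Ioc p (p + 2 * Real.pi))) := hfN.const_mul _
    have j2 : Integrable (fun θ => N θ ^ 2 - 2 * t * (f θ * N θ))
        (volume.restrict (Ioc p (p + 2 * Real.pi))) := hN2.sub j1
    have j3 : Integrable (fun θ => t ^ 2 * f θ ^ 2)
        (volume.restrict (Ioc p (p + 2 * Real.pi))) := hf2.const_mul _
    rw [integral_add j2 j3, integral_sub hN2 j1, integral_const_mul, integral_const_mul, hfNint]
  have hq0 : ∀ t : ℝ, 0 ≤ V - 2 * t * (φ * r) + t ^ 2 * A := fun t => by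
    rw [← hquad t]
    exact integral_nonneg fun _ => sq_nonneg _
  have hφr : 0 < φ * r := by positivity
  have hA0 : 0 ≤ A := integral_nonneg fun _ => sq_nonneg _
  have hT0 : 0 ≤ T := integral_nonneg fun _ => sq_nonneg _
  have hV0 : 0 ≤ V := integral_nonneg fun _ => sq_nonneg _
  have key := hq0 (1 / 2)
  have hTV : T = V := by
    have h1 : 0 ≤ V - φ * r + A / 4 := by linarith
    have h2 : V - φ * r + A / 4 ≤ 0 := by linarith
    have hd := discrim_le_zero (a := A) (b := -(2 * (φ * r))) (c := V) (fun t => by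
      have := hq0 t; nlinarith)
    rw [discrim] at hd
    nlinarith [sq_nonneg (T - V)]
  have hTval : T = φ * r / 2 := by linarith
  have hAval : A = 4 * T := by linarith
  have hq1 : ∫ θ in Ioc p (p + 2 * Real.pi), (N θ - 1 / 2 * f θ) ^ 2 = 0 := by
    rw [hquad]
    linarith
  constructor
  · -- the profile
    have hWeq : ∫ x in p..(p + 2 * Real.pi), (∫ t in p..x, G t) ^ 2 =
        (2 * Real.pi / Real.pi) ^ 2 * ∫ x in p..(p + 2 * Real.pi), G x ^ 2 := by
      rw [intervalIntegral.integral_of_le hple, intervalIntegral.integral_of_le hple]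
      have e : (2 * Real.pi / Real.pi) ^ 2 = 4 := by field_simp; norm_num
      rw [e, ← hTd, ← hAval, hA]
      simp_rw [hprim]
    obtain ⟨B, hB⟩ := wirtinger_dirichlet_eq h2pi hGL hend hWeq
    have hB' : ∀ θ ∈ Icc p (p + 2 * Real.pi), f θ ^ 2 = B ^ 2 / 2 * (1 - Real.cos (θ - p)) := by
      intro θ hθ
      rw [hprim, hB θ hθ, mul_pow]
      have e : Real.pi / (2 * Real.pi) * (θ - p) = (θ - p) / 2 := by field_simp
      rw [e]
      have h := Real.sin_sq_eq_half_sub ((θ - p) / 2)
      rw [h]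
      have e2 : 2 * ((θ - p) / 2) = θ - p := by ring
      rw [e2]
      ring
    have hBval : B ^ 2 / 2 * (2 * Real.pi) = 2 * (φ * r) := by
      have h1 : A = ∫ θ in p..(p + 2 * Real.pi), B ^ 2 / 2 * (1 - Real.cos (θ - p)) := by
        rw [hA, ← intervalIntegral.integral_of_le hple]
        apply intervalIntegral.integral_congr
        intro θ hθ
        rw [uIcc_of_le hple] at hθ
        exact hB' θ hθ
      rw [intervalIntegral.integral_const_mul, intervalIntegral.integral_sub (by simp)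
        (by apply Continuous.intervalIntegrable; fun_prop),
        intervalIntegral.integral_comp_sub_right (fun x => Real.cos x)] at h1
      simp only [intervalIntegral.integral_const, integral_cos] at h1
      have e1 : p + 2 * Real.pi - p = 2 * Real.pi := by ring
      rw [e1, sub_self, Real.sin_two_pi, Real.sin_zero] at h1
      simp only [smul_eq_mul, mul_one, sub_self, sub_zero] at h1
      rw [← h1, hAval, hTval]
      ring
    have hBv : B ^ 2 / 2 = φ / Real.pi * r := by
      field_simp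
      field_simp at hBval
      linarith
    intro z hz
    -- write `z` as a point of the circle with angle in the period
    set θ₀ : ℝ := z.arg with hθ₀
    obtain ⟨n, hn, -⟩ := existsUnique_add_zsmul_mem_Ico h2pi θ₀ p
    set θ : ℝ := θ₀ + n • (2 * Real.pi) with hθ
    have hzθ : z = pc 0 r θ := by
      have e1 : er θ = er θ₀ := by
        rw [er, er, hθ, zsmul_eq_mul]
        push_cast
        rw [add_mul, Complex.exp_add]
        have : Complex.exp ((n : ℂ) * (2 * Real.pi) * Complex.I) = 1 := by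
          rw [Complex.exp_eq_one_iff]
          exact ⟨n, by ring⟩
        rw [this, mul_one]
      rw [pc, e1, zero_add, er, hθ₀, ← hz, Complex.norm_mul_exp_arg_mul_I]
    have h1 := hB' θ ⟨hn.1, hn.2.le⟩
    have h2 : v z ^ 2 = f θ ^ 2 := by rw [hzθ]
    rw [h2, h1, hBv]
    have h3 : (z * (starRingEnd ℂ) (er p)).re = r * Real.cos (θ - p) := by
      rw [hzθ, pc, zero_add, er, er, ← Complex.exp_conj]
      simp only [map_mul, Complex.conj_ofReal, Complex.conj_I]
      rw [mul_assoc, ← Complex.exp_add]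
      have : (θ : ℂ) * Complex.I + (p : ℂ) * -Complex.I = ((θ - p : ℝ) : ℂ) * Complex.I := by
        push_cast; ring
      rw [this, Complex.re_ofReal_mul, Complex.exp_ofReal_mul_I_re]
    rw [h3]
    ring
  · have h1 : IntegrableOn (fun θ => (N θ - 1 / 2 * f θ) ^ 2) (Ioc p (p + 2 * Real.pi)) := by
      have e : ∀ θ, (N θ - 1 / 2 * f θ) ^ 2 =
        (N θ ^ 2 - 2 * (1 / 2) * (f θ * N θ)) + (1 / 2) ^ 2 * f θ ^ 2 := fun θ => by ring
      simp_rw [e]
      exact (hN2.sub (hfN.const_mul _)).add (hf2.const_mul _)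
    have h2 := (setIntegral_eq_zero_iff_of_nonneg_ae (Eventually.of_forall fun x => sq_nonneg _)
      h1).1 hq1
    filter_upwards [h2] with θ hθ
    have h3 := pow_eq_zero_iff (two_ne_zero) |>.1 hθ
    simp only [hN, hf] at h3
    linarith

end Pool.Agent.MP099f24
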